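import Pool.Agent.Run7.h962.NW.PSs
import Pool.Agent.Run7.h91.NW.FIN
import Pool.Agent.Run7.h249.NW.MULTI
import Pool.Agent.Run7.h249.NW.MPOL
import Pool.Agent.Run7.h420.NWS.ABS
import Pool.Agent.Run7.h571.NW.HITN
import Pool.Agent.Run7.h956.NW.Trig
import Pool.Agent.Run7.h697.NW.CUBE
import Pool.Agent.Run7.h697.NW.SEQ
import Pool.Agent.Run7.h743.NW.WIN
import Pool.Agent.Run7.h97.NW.MOM
import Pool.Agent.Run7.h245.NW.SITE
import Pool.Agent.Run7.h372.NW.MER2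
import Pool.Agent.Run7.h816.NW.GEN
import Pool.Agent.N422.NW.AR
import Pool.Agent.N422.NW.MER

/-! # Assembly (helper962; parts by helpers 816, 249, 420, 571, 956, 697, 743, 97, 245, 372, 91) -/

set_option autoImplicit false

namespace Pool.Agent.Run7.h962.NW

open Pool.Agent.N422.NW Pool.Agent.N422.NWS Pool.Agent.N422.SL

theorem site : S_SITE :=
  Pool.Agent.Run7.h245.NW.t_SITE (Pool.Agent.Run7.h743.NW.t_WIN _root_.Run7.h956.NW.t_TRIG
    Pool.Agent.Run7.h697.NW.t_CUBE) Pool.Agent.Run7.h697.NW.t_SEQ Pool.Agent.Run7.h97.NW.t_MOM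
    _root_.Run7.h956.NW.t_TRIG

theorem multi : S_MULTI :=
  Pool.Agent.Run7.h249.NW.t_MULTI Pool.Agent.Run7.h816.NW.t_GEN Pool.Agent.Run7.h249.NW.t_MPOL
    Pool.Agent.Run7.h420.NWS.t_ABS

theorem pss : S_PSs := t_PSs (t_IN multi site Pool.Agent.Run7.h571.NW.t_HITN) t_EVAL

theorem fin_all : S_FIN :=
  Pool.Agent.Run7.h91.NW.t_FIN pss t_AR t_MER Pool.Agent.Run7.h372.NW.t_MER2

end Pool.Agent.Run7.h962.NW
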