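import Pool.Agent.Run7.h962.NW.Stm

/-! # Part IN (helper962): windows, cells and the probabilities of hits -/

set_option autoImplicit false

open Finset

namespace Pool.Agent.Run7.h962.NW

open Pool.Agent.N422.NW Pool.Agent.N422.NWS Pool.Agent.N422.SL

/-- the window of the level `x` -/
def wn (ρ J x : ℕ) : ℕ := Nat.log ρ (x / J)

lemma wn_spec {ρ J x : ℕ} (hρ : 2 ≤ ρ) (hJ : 1 ≤ J) (hx : J ≤ x) :
    J * ρ ^ wn ρ J x ≤ x ∧ x < J * ρ ^ (wn ρ J x + 1) := by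
  have h1 : x / J ≠ 0 := by
    have := (Nat.one_le_div_iff (by omega)).2 hx
    omega
  constructor
  · have h2 := Nat.pow_log_le_self ρ h1
    have h3 := (Nat.le_div_iff_mul_le (by omega)).1 h2
    unfold wn
    rw [mul_comm]; exact h3
  · have h2 := Nat.lt_pow_succ_log_self (b := ρ) (by omega) (x / J)
    have h3 := (Nat.div_lt_iff_lt_mul (by omega)).1 h2
    unfold wn
    rw [mul_comm]; exact h3

lemma wn_unique {ρ J x l : ℕ} (hρ : 2 ≤ ρ) (hJ : 1 ≤ J) (h1 : J * ρ ^ l ≤ x) (h2 : x < J * ρ ^ (l + 1)) :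
    wn ρ J x = l := by
  have hx : J ≤ x := le_trans (Nat.le_mul_of_pos_right J (Nat.pos_of_ne_zero (by positivity))) h1
  obtain ⟨h3, h4⟩ := wn_spec hρ hJ hx
  have h5 : ρ ^ wn ρ J x < ρ ^ (l + 1) := by
    have := h3.trans_lt h2
    exact Nat.lt_of_mul_lt_mul_left this
  have h6 : ρ ^ l < ρ ^ (wn ρ J x + 1) := by
    have := h1.trans_lt h4
    exact Nat.lt_of_mul_lt_mul_left this
  have h7 := (Nat.pow_lt_pow_iff_right (show 1 < ρ by omega)).1 h5
  have h8 := (Nat.pow_lt_pow_iff_right (show 1 < ρ by omega)).1 h6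
  omega

lemma wn_lt {ρ J x L : ℕ} (hρ : 2 ≤ ρ) (hJ : 1 ≤ J) (hx : J ≤ x) (h : x < J * ρ ^ L) : wn ρ J x < L := by
  obtain ⟨h3, _⟩ := wn_spec hρ hJ hx
  have h5 : ρ ^ wn ρ J x < ρ ^ L := Nat.lt_of_mul_lt_mul_left (h3.trans_lt h)
  exact (Nat.pow_lt_pow_iff_right (show 1 < ρ by omega)).1 h5

/-- the cell -/
def cl (ρ J x : ℕ) : ℕ := x / ρ ^ wn ρ J x - J

lemma cl_spec {ρ J x : ℕ} (hρ : 2 ≤ ρ) (hJ : 1 ≤ J) (hx : J ≤ x) :
    J ≤ x / ρ ^ wn ρ J x ∧ x / ρ ^ wn ρ J x < ρ * J ∧ J + cl ρ J x = x / ρ ^ wn ρ J x := by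
  obtain ⟨h3, h4⟩ := wn_spec hρ hJ hx
  have hp : 0 < ρ ^ wn ρ J x := by positivity
  have h5 : J ≤ x / ρ ^ wn ρ J x := (Nat.le_div_iff_mul_le hp).2 h3
  refine ⟨h5, ?_, ?_⟩
  · rw [Nat.div_lt_iff_lt_mul hp]
    calc x < J * ρ ^ (wn ρ J x + 1) := h4
      _ = ρ * J * ρ ^ wn ρ J x := by ring
  · unfold cl; omega

lemma cl_lt {ρ J x : ℕ} (hρ : 2 ≤ ρ) (hJ : 1 ≤ J) (hx : J ≤ x) : cl ρ J x < (ρ - 1) * J := by
  obtain ⟨h1, h2, h3⟩ := cl_spec hρ hJ hx
  have : (ρ - 1) * J + J = ρ * J := by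
    obtain ⟨r, rfl⟩ : ∃ r, ρ = r + 1 := ⟨ρ - 1, by omega⟩
    simp only [Nat.add_sub_cancel]; ring
  omega

/-- the places of the cell `c` of the window `l` -/
lemma cell_iff {ρ J x l c : ℕ} (hρ : 2 ≤ ρ) (hJ : 1 ≤ J) (hx : J ≤ x) (hc : c < (ρ - 1) * J) :
    (wn ρ J x = l ∧ cl ρ J x = c) ↔ (ρ ^ l * (J + c) ≤ x ∧ x < ρ ^ l * (J + c + 1)) := by
  have hp : 0 < ρ ^ l := by positivity
  have hJρ : (ρ - 1) * J + J = ρ * J := by
    obtain ⟨r, rfl⟩ : ∃ r, ρ = r + 1 := ⟨ρ - 1, by omega⟩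
    simp only [Nat.add_sub_cancel]; ring
  constructor
  · rintro ⟨h1, h2⟩
    obtain ⟨h3, h4, h5⟩ := cl_spec hρ hJ hx
    rw [h2, h1] at h5
    constructor
    · have := Nat.div_mul_le_self x (ρ ^ l)
      rw [← h5] at this
      rw [mul_comm]; exact this
    · have := Nat.lt_div_mul_add hp (a := x)
      rw [← h5] at this
      calc x < (J + c) * ρ ^ l + ρ ^ l := this
        _ = ρ ^ l * (J + c + 1) := by ring
  · rintro ⟨h1, h2⟩
    have hl : wn ρ J x = l := by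
      apply wn_unique hρ hJ
      · calc J * ρ ^ l ≤ (J + c) * ρ ^ l := Nat.mul_le_mul_right _ (by omega)
          _ = ρ ^ l * (J + c) := by ring
          _ ≤ x := h1
      · calc x < ρ ^ l * (J + c + 1) := h2
          _ ≤ ρ ^ l * (ρ * J) := Nat.mul_le_mul_left _ (by omega)
          _ = J * ρ ^ (l + 1) := by ring
    refine ⟨hl, ?_⟩
    obtain ⟨h3, h4, h5⟩ := cl_spec hρ hJ hx
    rw [hl] at h5
    have h6 : x / ρ ^ l = J + c := by
      apply Nat.div_eq_of_lt_le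
      · rw [mul_comm]; exact h1
      · calc x < ρ ^ l * (J + c + 1) := h2
          _ = (J + c + 1) * ρ ^ l := by ring
    omega

/-- telescoping of the logarithms -/
lemma sum_log (a b : ℕ) (ha : 1 ≤ a) (hab : a ≤ b) :
    ∑ j ∈ Ico a b, Real.log (((j : ℝ) + 1) / j) = Real.log ((b : ℝ) / a) := by
  induction b, hab using Nat.le_induction with
  | base =>
    have : (a : ℝ) ≠ 0 := by positivity
    simp [div_self this]
  | succ n hn ih =>
    rw [Finset.sum_Ico_succ_top hn, ih]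
    have h1 : (0 : ℝ) < a := by positivity
    have h2 : (0 : ℝ) < n := by
      have : 0 < n := by omega
      positivity
    rw [← Real.log_mul (by positivity) (by positivity)]
    congr 1
    push_cast
    field_simp

end Pool.Agent.Run7.h962.NW
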