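import Pool.Agent.Run7.h962.NW.In1
import Pool.Agent.N422.WS.W

/-! # Part IN (helper962): the probabilities of hits of the cells -/

set_option autoImplicit false

open Finset

namespace Pool.Agent.Run7.h962.NW

open Pool.Agent.N422.NW Pool.Agent.N422.NWS Pool.Agent.N422.SL

/-- sums over ranges of levels -/
lemma range_sum {N J n : ℕ} {β : Fin N → ℕ} {u : Fin N → ℝ} {η : ℝ} (hJ : 1 ≤ J)
    (hu : ∀ j, J ≤ j → j < n → Real.log (((j : ℝ) + 1) / j) - η ≤ ∑ i ∈ univ.filter (fun i => β i = j), u i ∧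
      ∑ i ∈ univ.filter (fun i => β i = j), u i ≤ Real.log (((j : ℝ) + 1) / j) + η)
    {a b : ℕ} (ha : J ≤ a) (hab : a ≤ b) (hb : b ≤ n) :
    Real.log ((b : ℝ) / a) - ((b : ℝ) - a) * η ≤ ∑ i ∈ univ.filter (fun i => a ≤ β i ∧ β i < b), u i ∧
      ∑ i ∈ univ.filter (fun i => a ≤ β i ∧ β i < b), u i ≤ Real.log ((b : ℝ) / a) + ((b : ℝ) - a) * η := by
  have e : ∑ i ∈ univ.filter (fun i => a ≤ β i ∧ β i < b), u i =
      ∑ j ∈ Ico a b, ∑ i ∈ univ.filter (fun i => β i = j), u i := by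
    rw [← Finset.sum_fiberwise_of_maps_to (s := univ.filter (fun i => a ≤ β i ∧ β i < b)) (t := Ico a b) (g := β)]
    · apply sum_congr rfl
      intro j hj
      apply sum_congr _ (fun _ _ => rfl)
      ext i
      rw [mem_Ico] at hj
      simp only [mem_filter, mem_univ, true_and]
      constructor
      · rintro ⟨_, h⟩; exact h
      · intro h; exact ⟨by omega, h⟩
    · intro i hi
      rw [mem_filter] at hi
      exact mem_Ico.2 hi.2
  rw [e]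
  have hs : ∑ _j ∈ Ico a b, η = ((b : ℝ) - a) * η := by
    rw [sum_const, Nat.card_Ico, nsmul_eq_mul, Nat.cast_sub hab]
  constructor
  · calc Real.log ((b : ℝ) / a) - ((b : ℝ) - a) * η = ∑ j ∈ Ico a b, (Real.log (((j : ℝ) + 1) / j) - η) := by
          rw [sum_sub_distrib, sum_log a b (by omega) hab, hs]
      _ ≤ _ := sum_le_sum fun j hj => by
          rw [mem_Ico] at hj
          exact (hu j (by omega) (by omega)).1
  · calc ∑ j ∈ Ico a b, ∑ i ∈ univ.filter (fun i => β i = j), u i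
        ≤ ∑ j ∈ Ico a b, (Real.log (((j : ℝ) + 1) / j) + η) := sum_le_sum fun j hj => by
          rw [mem_Ico] at hj
          exact (hu j (by omega) (by omega)).2
      _ = _ := by rw [sum_add_distrib, sum_log a b (by omega) hab, hs]

lemma prod_ge {ι : Type} (s : Finset ι) (u : ι → ℝ) (δ : ℝ) (hδ : δ ≤ 1 / 2) (hu : ∀ i ∈ s, 0 ≤ u i ∧ u i ≤ δ) :
    Real.exp (-((1 + δ) * ∑ i ∈ s, u i)) ≤ ∏ i ∈ s, (1 - u i) := by
  rw [mul_sum, ← sum_neg_distrib, Real.exp_sum]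
  apply prod_le_prod
  · intro i _; exact (Real.exp_pos _).le
  · intro i hi
    obtain ⟨h0, h1⟩ := hu i hi
    have h2 : 0 < 1 - u i := by linarith
    rw [← Real.exp_log h2]
    apply Real.exp_le_exp.2
    have h3 := Pool.Agent.N422.WS.W_log (y := -u i) (by rw [abs_neg, abs_of_nonneg h0]; linarith)
    have h4 : 1 + -u i = 1 - u i := by ring
    rw [h4] at h3
    nlinarith

lemma prod_le {ι : Type} (s : Finset ι) (u : ι → ℝ) (hu : ∀ i ∈ s, u i ≤ 1) :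
    ∏ i ∈ s, (1 - u i) ≤ Real.exp (-∑ i ∈ s, u i) := by
  rw [← sum_neg_distrib, Real.exp_sum]
  apply prod_le_prod
  · intro i hi; linarith [hu i hi]
  · intro i _
    have := Real.add_one_le_exp (-u i)
    linarith

section

variable {N ρ J L : ℕ} {β : Fin N → ℕ} {u : Fin N → ℝ} {η δ : ℝ}

/-- the cell of a place -/
def ce (hρ : 2 ≤ ρ) (hJ : 1 ≤ J) (hβ : ∀ i, J ≤ β i ∧ β i < J * ρ ^ L) (i : Fin N) : Fin ((ρ - 1) * J) :=
  ⟨cl ρ J (β i), cl_lt hρ hJ (hβ i).1⟩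

/-- the sum of the probabilities in a cell -/
lemma cell_sum (hρ : 2 ≤ ρ) (hJ : 1 ≤ J) (hβ : ∀ i, J ≤ β i ∧ β i < J * ρ ^ L) (hη : 0 ≤ η)
    (hu : ∀ j, J ≤ j → j < J * ρ ^ L → Real.log (((j : ℝ) + 1) / j) - η ≤ ∑ i ∈ univ.filter (fun i => β i = j), u i ∧
      ∑ i ∈ univ.filter (fun i => β i = j), u i ≤ Real.log (((j : ℝ) + 1) / j) + η)
    {l : ℕ} (hl : l < L) (c : Fin ((ρ - 1) * J)) :
    Real.log (((J + c : ℕ) + 1 : ℝ) / (J + c : ℕ)) - (J * ρ ^ L : ℕ) * η ≤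
      ∑ i ∈ univ.filter (fun i => wn ρ J (β i) = l ∧ ce hρ hJ hβ i = c), u i ∧
    ∑ i ∈ univ.filter (fun i => wn ρ J (β i) = l ∧ ce hρ hJ hβ i = c), u i ≤
      Real.log (((J + c : ℕ) + 1 : ℝ) / (J + c : ℕ)) + (J * ρ ^ L : ℕ) * η := by
  have hJρ : (ρ - 1) * J + J = ρ * J := by
    obtain ⟨r, rfl⟩ : ∃ r, ρ = r + 1 := ⟨ρ - 1, by omega⟩
    simp only [Nat.add_sub_cancel]; ring
  have hc := c.2
  have hp : 0 < ρ ^ l := by positivity
  have e : univ.filter (fun i => wn ρ J (β i) = l ∧ ce hρ hJ hβ i = c) =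
      univ.filter (fun i => ρ ^ l * (J + c) ≤ β i ∧ β i < ρ ^ l * (J + c + 1)) := by
    ext i
    simp only [mem_filter, mem_univ, true_and]
    rw [← cell_iff hρ hJ (hβ i).1 hc]
    unfold ce
    rw [Fin.ext_iff]
  rw [e]
  have h1 : J ≤ ρ ^ l * (J + c) := by
    calc J ≤ J + c := by omega
      _ ≤ ρ ^ l * (J + c) := Nat.le_mul_of_pos_left _ hp
  have h2 : ρ ^ l * (J + c + 1) ≤ J * ρ ^ L := by
    calc ρ ^ l * (J + c + 1) ≤ ρ ^ l * (ρ * J) := Nat.mul_le_mul_left _ (by omega)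
      _ = J * ρ ^ (l + 1) := by ring
      _ ≤ J * ρ ^ L := Nat.mul_le_mul_left _ (Nat.pow_le_pow_right (by omega) hl)
  have h3 := range_sum (η := η) hJ hu h1 (Nat.mul_le_mul_left _ (Nat.le_succ (J + c))) h2
  have h4 : ((ρ ^ l * (J + c + 1) : ℕ) : ℝ) / ((ρ ^ l * (J + c) : ℕ) : ℝ) = ((J + c : ℕ) + 1 : ℝ) / (J + c : ℕ) := by
    push_cast
    have : (0 : ℝ) < (ρ : ℝ) ^ l := by positivity
    field_simp
  have h5 : ((ρ ^ l * (J + c + 1) : ℕ) : ℝ) - ((ρ ^ l * (J + c) : ℕ) : ℝ) = (ρ : ℝ) ^ l := by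
    push_cast; ring
  have h6 : (ρ : ℝ) ^ l ≤ ((J * ρ ^ L : ℕ) : ℝ) := by
    have : ρ ^ l ≤ J * ρ ^ L := by
      calc ρ ^ l ≤ ρ ^ L := Nat.pow_le_pow_right (by omega) hl.le
        _ ≤ J * ρ ^ L := Nat.le_mul_of_pos_left _ hJ
    exact_mod_cast this
  have h3' := h3
  simp only [Nat.succ_eq_add_one] at h3'
  rw [h4, h5] at h3'
  have h7 := mul_le_mul_of_nonneg_right h6 hη
  constructor
  · linarith [h3'.1]
  · linarith [h3'.2]

/-- the probability of a hit in a cell -/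
lemma cell_prod (hρ : 2 ≤ ρ) (hJ : 2 ≤ J) (hβ : ∀ i, J ≤ β i ∧ β i < J * ρ ^ L) (hη : 0 ≤ η)
    (hu : ∀ j, J ≤ j → j < J * ρ ^ L → Real.log (((j : ℝ) + 1) / j) - η ≤ ∑ i ∈ univ.filter (fun i => β i = j), u i ∧
      ∑ i ∈ univ.filter (fun i => β i = j), u i ≤ Real.log (((j : ℝ) + 1) / j) + η)
    (hδ0 : 0 ≤ δ) (hδ : δ + 2 * ((J * ρ ^ L : ℕ) * η) ≤ 1 / 8) (hu1 : ∀ i, 0 ≤ u i ∧ u i ≤ δ)
    {l : ℕ} (hl : l < L) (c : Fin ((ρ - 1) * J)) :
    0 ≤ pc (fun i => wn ρ J (β i)) (ce hρ (by omega) hβ) u l c ∧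
    pc (fun i => wn ρ J (β i)) (ce hρ (by omega) hβ) u l c ≤ 1 / 2 ∧
    pc (fun i => wn ρ J (β i)) (ce hρ (by omega) hβ) u l c / (1 - pc (fun i => wn ρ J (β i)) (ce hρ (by omega) hβ) u l c) ≤
      1 / ((J + c : ℕ) : ℝ) + 4 * (δ + 2 * ((J * ρ ^ L : ℕ) * η)) := by
  obtain ⟨-, h2⟩ := cell_sum hρ (by omega : 1 ≤ J) hβ hη hu hl c
  set C := univ.filter (fun i => wn ρ J (β i) = l ∧ ce hρ (by omega : 1 ≤ J) hβ i = c) with hC
  set x : ℝ := δ + 2 * ((J * ρ ^ L : ℕ) * η) with hx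
  set h : ℝ := ((J + c : ℕ) : ℝ) with hh
  have hh2 : 2 ≤ h := by
    rw [hh]
    have : 2 ≤ J + c := by omega
    exact_mod_cast this
  have hnη : 0 ≤ ((J * ρ ^ L : ℕ) : ℝ) * η := by positivity
  have hx0 : 0 ≤ x := by positivity
  have hP := prod_ge C u δ (by linarith) (fun i _ => hu1 i)
  set P := ∏ i ∈ C, (1 - u i) with hPd
  have hP1 : P ≤ 1 := prod_le_one (fun i _ => by linarith [(hu1 i).2]) (fun i _ => by linarith [(hu1 i).1])
  have hlog : Real.log ((h + 1) / h) ≤ 1 := by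
    have h3 : Real.log ((h + 1) / h) ≤ (h + 1) / h - 1 := Real.log_le_sub_one_of_pos (by positivity)
    have h4 : (h + 1) / h - 1 = 1 / h := by field_simp; ring
    have h5 : 1 / h ≤ 1 := by
      rw [div_le_one (by linarith)]; linarith
    linarith
  have hlog0 : 0 ≤ Real.log ((h + 1) / h) := Real.log_nonneg (by rw [le_div_iff₀ (by linarith)]; linarith)
  have h5 : (1 + δ) * ∑ i ∈ C, u i ≤ Real.log ((h + 1) / h) + x := by
    have hs : ∑ i ∈ C, u i ≤ Real.log ((h + 1) / h) + (J * ρ ^ L : ℕ) * η := h2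
    have h6 : (1 + δ) * ∑ i ∈ C, u i ≤ (1 + δ) * (Real.log ((h + 1) / h) + (J * ρ ^ L : ℕ) * η) :=
      mul_le_mul_of_nonneg_left hs (by linarith)
    nlinarith
  have h6 : h / (h + 1) * Real.exp (-x) ≤ P := by
    refine le_trans ?_ hP
    have h7 : Real.exp (-(Real.log ((h + 1) / h) + x)) = h / (h + 1) * Real.exp (-x) := by
      rw [neg_add, Real.exp_add, Real.exp_neg, Real.exp_log (by positivity), inv_div]
    rw [← h7]
    exact Real.exp_le_exp.2 (by linarith)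
  have hex : 1 - x ≤ Real.exp (-x) := by linarith [Real.add_one_le_exp (-x)]
  have hP0 : 0 < P := lt_of_lt_of_le (by positivity) h6
  have hinv : P⁻¹ ≤ 1 + 1 / h + 4 * x := by
    have h7 : h / (h + 1) * (1 - x) ≤ P := le_trans (mul_le_mul_of_nonneg_left hex (by positivity)) h6
    rw [inv_le_iff_one_le_mul₀ hP0]
    have h8 : (1 + 1 / h + 4 * x) * (h / (h + 1) * (1 - x)) ≤ (1 + 1 / h + 4 * x) * P :=
      mul_le_mul_of_nonneg_left h7 (by positivity)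
    refine le_trans ?_ h8
    have h9 : (1 + 1 / h + 4 * x) * (h / (h + 1) * (1 - x)) = (1 + 4 * x * (h / (h + 1))) * (1 - x) := by
      field_simp
    rw [h9]
    have h10 : 2 / 3 ≤ h / (h + 1) := by
      rw [div_le_div_iff₀ (by norm_num) (by linarith)]; linarith
    have h11 : (1 + 4 * x * (2 / 3)) * (1 - x) ≤ (1 + 4 * x * (h / (h + 1))) * (1 - x) := by
      apply mul_le_mul_of_nonneg_right _ (by linarith)
      have := mul_le_mul_of_nonneg_left h10 (show 0 ≤ 4 * x by linarith)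
      linarith
    refine le_trans ?_ h11
    nlinarith
  have hpc : pc (fun i => wn ρ J (β i)) (ce hρ (by omega) hβ) u l c = 1 - P := rfl
  rw [hpc]
  refine ⟨by linarith, ?_, ?_⟩
  · -- P ≥ 1/2
    have h7 : h / (h + 1) * (1 - x) ≤ P := le_trans (mul_le_mul_of_nonneg_left hex (by positivity)) h6
    have h10 : 2 / 3 ≤ h / (h + 1) := by
      rw [div_le_div_iff₀ (by norm_num) (by linarith)]; linarith
    have h12 : 2 / 3 * (1 - x) ≤ h / (h + 1) * (1 - x) := mul_le_mul_of_nonneg_right h10 (by linarith)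
    nlinarith
  · have e1 : (1 - P) / (1 - (1 - P)) = P⁻¹ - 1 := by
      rw [sub_sub_cancel]; field_simp
    rw [e1]; linarith

/-- the product over a window -/
lemma window_prod (hρ : 2 ≤ ρ) (hJ : 1 ≤ J) (hβ : ∀ i, J ≤ β i ∧ β i < J * ρ ^ L) (hη : 0 ≤ η)
    (hu : ∀ j, J ≤ j → j < J * ρ ^ L → Real.log (((j : ℝ) + 1) / j) - η ≤ ∑ i ∈ univ.filter (fun i => β i = j), u i ∧
      ∑ i ∈ univ.filter (fun i => β i = j), u i ≤ Real.log (((j : ℝ) + 1) / j) + η)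
    (hu1 : ∀ i, 0 ≤ u i ∧ u i ≤ 1 / 2) {l : ℕ} (hl : l < L) :
    0 < ∏ c, (1 - pc (fun i => wn ρ J (β i)) (ce hρ hJ hβ) u l c) ∧
    ρ * (1 - (J * ρ ^ L : ℕ) * η) ≤ (∏ c, (1 - pc (fun i => wn ρ J (β i)) (ce hρ hJ hβ) u l c))⁻¹ := by
  have e : ∏ c, (1 - pc (fun i => wn ρ J (β i)) (ce hρ hJ hβ) u l c) =
      ∏ i ∈ univ.filter (fun i => J * ρ ^ l ≤ β i ∧ β i < J * ρ ^ (l + 1)), (1 - u i) := by
    have e1 : ∀ c, 1 - pc (fun i => wn ρ J (β i)) (ce hρ hJ hβ) u l c =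
        ∏ i ∈ (univ.filter (fun i => wn ρ J (β i) = l)).filter (fun i => ce hρ hJ hβ i = c), (1 - u i) := by
      intro c
      unfold pc
      rw [sub_sub_cancel, filter_filter]
    rw [prod_congr rfl (fun c _ => e1 c)]
    rw [Finset.prod_fiberwise]
    apply prod_congr _ (fun _ _ => rfl)
    ext i
    simp only [mem_filter, mem_univ, true_and]
    constructor
    · intro h; rw [← h]; exact wn_spec hρ hJ (hβ i).1
    · rintro ⟨h1, h2⟩; exact wn_unique hρ hJ h1 h2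
  rw [e]
  have hpos : 0 < ∏ i ∈ univ.filter (fun i => J * ρ ^ l ≤ β i ∧ β i < J * ρ ^ (l + 1)), (1 - u i) :=
    prod_pos fun i _ => by linarith [(hu1 i).2]
  refine ⟨hpos, ?_⟩
  have hp : 0 < ρ ^ l := by positivity
  have h1 : J ≤ J * ρ ^ l := Nat.le_mul_of_pos_right J hp
  have h2 : J * ρ ^ (l + 1) ≤ J * ρ ^ L := Nat.mul_le_mul_left _ (Nat.pow_le_pow_right (by omega) hl)
  have h3 : J * ρ ^ l ≤ J * ρ ^ (l + 1) := Nat.mul_le_mul_left _ (Nat.pow_le_pow_right (by omega) (by omega))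
  have h4 := (range_sum (η := η) hJ hu h1 h3 h2).1
  have h5 := prod_le (univ.filter (fun i => J * ρ ^ l ≤ β i ∧ β i < J * ρ ^ (l + 1))) u
    (fun i _ => by linarith [(hu1 i).2])
  have h6 : ((J * ρ ^ (l + 1) : ℕ) : ℝ) / ((J * ρ ^ l : ℕ) : ℝ) = ρ := by
    push_cast
    have : (0 : ℝ) < (ρ : ℝ) ^ l := by positivity
    have hJ0 : (0 : ℝ) < J := by exact_mod_cast hJ
    rw [pow_succ, div_eq_iff (by positivity)]
    ring
  rw [h6] at h4
  have h7 : ((J * ρ ^ (l + 1) : ℕ) : ℝ) - ((J * ρ ^ l : ℕ) : ℝ) ≤ (J * ρ ^ L : ℕ) := by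
    have : ((J * ρ ^ (l + 1) : ℕ) : ℝ) ≤ ((J * ρ ^ L : ℕ) : ℝ) := by exact_mod_cast h2
    have h8 : (0 : ℝ) ≤ ((J * ρ ^ l : ℕ) : ℝ) := Nat.cast_nonneg _
    linarith
  have hρ0 : (0 : ℝ) < ρ := by positivity
  have h8 : Real.log ρ - (J * ρ ^ L : ℕ) * η ≤
      ∑ i ∈ univ.filter (fun i => J * ρ ^ l ≤ β i ∧ β i < J * ρ ^ (l + 1)), u i := by
    have := mul_le_mul_of_nonneg_right h7 hη
    linarith
  calc (ρ : ℝ) * (1 - (J * ρ ^ L : ℕ) * η) ≤ ρ * Real.exp (-((J * ρ ^ L : ℕ) * η)) := by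
        apply mul_le_mul_of_nonneg_left _ hρ0.le
        linarith [Real.add_one_le_exp (-(((J * ρ ^ L : ℕ) : ℝ) * η))]
    _ = Real.exp (Real.log ρ - (J * ρ ^ L : ℕ) * η) := by
        rw [sub_eq_add_neg, Real.exp_add, Real.exp_log hρ0]
    _ ≤ Real.exp (∑ i ∈ univ.filter (fun i => J * ρ ^ l ≤ β i ∧ β i < J * ρ ^ (l + 1)), u i) := Real.exp_le_exp.2 h8
    _ ≤ _ := by
        rw [← inv_inv (Real.exp _), ← Real.exp_neg]
        exact inv_anti₀ hpos h5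

end

end Pool.Agent.Run7.h962.NW
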