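import Pool.Agent.Run7.h962.NW.In2

/-! # Part IN (helper962): the constant of the second order term -/

set_option autoImplicit false

open Finset

namespace Pool.Agent.Run7.h962.NW

open Pool.Agent.N422.NW Pool.Agent.N422.NWS Pool.Agent.N422.SL

lemma SE_eq (ρ J : ℕ) (hρ : 1 ≤ ρ) : SE ρ J =
    ∑ A ∈ (univ : Finset (Finset (Fin ((ρ - 1) * J)))).erase ∅,
      (∏ c ∈ A, 1 / ((J + c : ℕ) : ℝ)) / (sz (fun c : Fin ((ρ - 1) * J) => J + (c : ℕ)) A : ℝ) := by
  have hJρ : (ρ - 1) * J + J = ρ * J := by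
    obtain ⟨r, rfl⟩ : ∃ r, ρ = r + 1 := ⟨ρ - 1, by omega⟩
    simp only [Nat.add_sub_cancel]; ring
  let emb : Fin ((ρ - 1) * J) ↪ ℕ := ⟨fun c => J + c, fun a b h => by
    simp only at h; ext; omega⟩
  symm
  unfold SE
  refine Finset.sum_bij (fun A _ => A.map emb) ?_ ?_ ?_ ?_
  · intro A hA
    rw [mem_erase] at hA ⊢
    refine ⟨fun h => hA.1 (Finset.map_eq_empty.1 h), ?_⟩
    rw [mem_powerset]
    intro x hx
    obtain ⟨c, _, rfl⟩ := Finset.mem_map.1 hx
    rw [mem_Ico]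
    have := c.2
    change J ≤ J + (c : ℕ) ∧ J + (c : ℕ) < ρ * J
    omega
  · intro A _ A' _ h
    exact Finset.map_injective emb h
  · intro B hB
    rw [mem_erase, mem_powerset] at hB
    have e : (univ.filter (fun c : Fin ((ρ - 1) * J) => J + (c : ℕ) ∈ B)).map emb = B := by
      ext x
      rw [Finset.mem_map]
      constructor
      · rintro ⟨c, hc, rfl⟩
        rw [mem_filter] at hc
        exact hc.2
      · intro hx
        have h1 := mem_Ico.1 (hB.2 hx)
        refine ⟨⟨x - J, by omega⟩, ?_, ?_⟩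
        · rw [mem_filter]
          refine ⟨mem_univ _, ?_⟩
          simp only
          rwa [Nat.add_sub_cancel' h1.1]
        · change J + (x - J) = x
          omega
    refine ⟨_, ?_, e⟩
    rw [mem_erase]
    refine ⟨?_, mem_univ _⟩
    intro h
    apply hB.1
    rw [← e, h, Finset.map_empty]
  · intro A _
    rw [Finset.prod_map, Finset.sum_map]
    congr 1
    unfold sz
    rw [Nat.cast_sum]
    rfl

lemma D_bound (ρ J : ℕ) (ε : ℝ) (hρ : 1 ≤ ρ) (hJ : 1 ≤ J) (hε : 0 < ε) : ∃ y0 : ℝ, 0 < y0 ∧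
    ∀ r : Fin ((ρ - 1) * J) → ℝ, (∀ c, 0 ≤ r c ∧ r c ≤ 1 / ((J + c : ℕ) : ℝ) + y0) →
    ∑ A ∈ (univ : Finset (Finset (Fin ((ρ - 1) * J)))).erase ∅, (∏ c ∈ A, r c) /
      (sz (fun c : Fin ((ρ - 1) * J) => J + (c : ℕ)) A : ℝ) ≤ SE ρ J + ε := by
  let Φ : ℝ → ℝ := fun y => ∑ A ∈ (univ : Finset (Finset (Fin ((ρ - 1) * J)))).erase ∅,
      (∏ c ∈ A, (1 / ((J + c : ℕ) : ℝ) + y)) / (sz (fun c : Fin ((ρ - 1) * J) => J + (c : ℕ)) A : ℝ)
  have hΦ : Continuous Φ := by
    apply continuous_finsetSum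
    intro A _
    apply Continuous.div_const
    apply continuous_finsetProd
    intro c _
    exact continuous_const.add continuous_id
  have h0 : Φ 0 = SE ρ J := by
    rw [SE_eq ρ J hρ]
    simp only [Φ, add_zero]
  have h1 : ∀ᶠ y in nhds (0 : ℝ), Φ y < Φ 0 + ε := by
    exact (hΦ.tendsto 0).eventually (gt_mem_nhds (by linarith))
  obtain ⟨δ, hδ, h2⟩ := Metric.eventually_nhds_iff.1 h1
  refine ⟨δ / 2, by linarith, fun r hr => ?_⟩
  have h3 : Φ (δ / 2) < Φ 0 + ε := h2 (by rw [Real.dist_eq, sub_zero, abs_of_pos (by linarith)]; linarith)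
  rw [h0] at h3
  refine le_trans ?_ h3.le
  apply sum_le_sum
  intro A _
  apply div_le_div_of_nonneg_right _ (Nat.cast_nonneg _)
  apply prod_le_prod
  · intro c _; exact (hr c).1
  · intro c _; exact (hr c).2

lemma SE_nonneg (ρ J : ℕ) : 0 ≤ SE ρ J := by
  unfold SE
  apply sum_nonneg
  intro A _
  apply div_nonneg
  · apply prod_nonneg; intro h _; positivity
  · apply sum_nonneg; intro h _; positivity

lemma DD_pos {ρ J : ℕ} {ε : ℝ} (hε : 0 < ε) : 0 < DD ε ρ J := by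
  unfold DD
  have := SE_nonneg ρ J
  positivity

end Pool.Agent.Run7.h962.NW
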