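import Pool.Agent.Run7.h962.NW.In3

/-! # Part IN (helper962): the inequality in the model -/

set_option autoImplicit false

open Finset

namespace Pool.Agent.Run7.h962.NW

open Pool.Agent.N422.NW Pool.Agent.N422.NWS Pool.Agent.N422.SL

lemma muP_eq {N k : ℕ} (q : Fin N → ℝ) (γ : St N k) : muP q γ = muU (fun i => 1 / q i) γ := by
  unfold muP muU
  apply prod_congr rfl
  intro i _
  unfold mu1 mu1u
  cases γ i with
  | none => simp only; ring
  | some a => rfl

lemma muU_nonneg {N k : ℕ} {u : Fin N → ℝ} (hu : ∀ i, 0 ≤ u i ∧ k * u i ≤ 1) (γ : St N k) : 0 ≤ muU u γ := by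
  unfold muU
  apply prod_nonneg
  intro i _
  unfold mu1u
  cases γ i with
  | none => simp only; linarith [(hu i).2]
  | some a => exact (hu i).1

lemma alive_eq {N k : ℕ} (γ : St N k) : alive γ N = univ.filter (fun a => Ta γ a = ∅) := by
  unfold alive Ta
  apply filter_congr
  intro a _
  rw [filter_eq_empty_iff]
  constructor
  · intro h i _ h2; exact h i i.2 h2
  · intro h j _ h2; exact h (mem_univ j) h2

lemma Lev_mono {N k : ℕ} {ν β : Fin N → ℕ} {n : ℕ} {f : St N k → ℝ} (h : ∀ i, ν i ≤ β i) (hf : Lev β n f) :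
    Lev ν n f := by
  obtain ⟨m, S, g, h1, h2, h3⟩ := hf
  exact ⟨m, S, g, fun x => (sum_le_sum fun i _ => h i).trans (h1 x), h2, h3⟩

/-- the recursion of the `B l` -/
lemma B_rec {b D δ : ℝ} (hb : 0 < b) (hD : 0 < D) {l L : ℕ} (hl : l + 1 < L)
    (hδ : δ ≤ D ^ 2 / (b + D * L) ^ 2) :
    1 / (b + D * ((l + 1 : ℕ) : ℝ)) + D * (1 / (b + D * ((l + 1 : ℕ) : ℝ))) ^ 2 ≤ (1 - δ) * (1 / (b + D * (l : ℝ))) := by
  set x : ℝ := b + D * (l : ℝ) with hx
  have hx0 : 0 < x := by positivity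
  have e : b + D * ((l + 1 : ℕ) : ℝ) = x + D := by rw [hx]; push_cast; ring
  rw [e]
  have h1 : x + D ≤ b + D * L := by
    have : ((l : ℝ) + 1) ≤ L := by exact_mod_cast hl.le
    rw [hx]; nlinarith
  have h2 : δ ≤ D ^ 2 / (x + D) ^ 2 := by
    refine hδ.trans ?_
    apply div_le_div_of_nonneg_left (by positivity) (by positivity)
    exact pow_le_pow_left₀ (by positivity) h1 2
  have h3 : 1 / (x + D) + D * (1 / (x + D)) ^ 2 = (1 - D ^ 2 / (x + D) ^ 2) * (1 / x) := by
    field_simp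
    ring
  rw [h3]
  apply mul_le_mul_of_nonneg_right _ (by positivity)
  linarith

lemma exp_sub_one_le {x X : ℝ} (h0 : 0 ≤ x) (h1 : x ≤ X) : Real.exp x - 1 ≤ x * Real.exp X := by
  have h2 : 1 - x ≤ Real.exp (-x) := by linarith [Real.add_one_le_exp (-x)]
  have h3 : Real.exp x * Real.exp (-x) = 1 := by rw [← Real.exp_add]; simp
  have h4 : Real.exp x * (1 - x) ≤ 1 := by
    have := mul_le_mul_of_nonneg_left h2 (Real.exp_pos x).le
    linarith
  have h5 : x * Real.exp x ≤ x * Real.exp X := mul_le_mul_of_nonneg_left (Real.exp_le_exp.2 h1) h0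
  nlinarith


theorem t_IN (h1 : S_MULTI) (h2 : S_SITE) (h3 : S_HITN) : S_IN := by
  intro ρ J ε hρ hJ hε
  have hJ1 : 1 ≤ J := by omega
  obtain ⟨B0, υ0, hB0, hυ0, hsite⟩ := h2 ((ρ - 1) * J) (fun c => J + (c : ℕ)) ε (fun c => by omega) hε
  refine ⟨B0, hB0, fun k L b ε' hk hL hkL hb hbB hε' => ?_⟩
  obtain ⟨y0, hy0, hDb⟩ := D_bound ρ J ε (by omega) hJ1 hε
  have hD : 0 < DD ε ρ J := DD_pos hε
  set D := DD ε ρ J with hDdef
  set n : ℕ := J * ρ ^ L with hn
  have hn0 : 0 < n := by positivity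
  have hnR : (0 : ℝ) < n := by exact_mod_cast hn0
  have hk0 : (0 : ℝ) < k := by exact_mod_cast hk
  -- the bound for the sum of the u
  set S : ℝ := Real.log ((n : ℝ) / J) + 1 with hS
  have hJR : (0 : ℝ) < J := by positivity
  have hlog0 : 0 ≤ Real.log ((n : ℝ) / J) := by
    apply Real.log_nonneg
    rw [le_div_iff₀ hJR, one_mul]
    have : J ≤ n := Nat.le_mul_of_pos_right J (by positivity)
    exact_mod_cast this
  have hS0 : 0 < S := by linarith
  set t : ℝ := υ0 / ρ ^ L with ht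
  have hρR : (0 : ℝ) < ρ := by positivity
  have ht0 : 0 < t := by positivity
  set Hb : ℝ := k * S + 12 * Real.sqrt ((k * S) * (n / J)) + 24 * (n / J) with hHb
  have hHb0 : 0 ≤ Hb := by positivity
  set X0 : ℝ := 24 * k ^ 2 * S + 2 * k * S with hX0
  set W : ℝ := Real.exp X0 * (24 * k ^ 2 * S + 2 * k * Hb) with hW
  have hW0 : 0 < W := by positivity
  set δ0 : ℝ := min (min (ε' / (4 * (1 + ε'))) (D ^ 2 / (b + D * L) ^ 2)) (min (min (1 / 32) (y0 / 32)) 1) with hδ0
  have hδ0p : 0 < δ0 := by positivity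
  have hδa : δ0 ≤ ε' / (4 * (1 + ε')) := (min_le_left _ _).trans (min_le_left _ _)
  have hδb : δ0 ≤ D ^ 2 / (b + D * L) ^ 2 := (min_le_left _ _).trans (min_le_right _ _)
  have hδc : δ0 ≤ 1 / 32 := (min_le_right _ _).trans ((min_le_left _ _).trans (min_le_left _ _))
  have hδd : δ0 ≤ y0 / 32 := (min_le_right _ _).trans ((min_le_left _ _).trans (min_le_right _ _))
  set q0 : ℝ := max (max (1 / δ0) (2 * k)) (4 * W / (ε' * n * t)) with hq0
  have hq0a : 1 / δ0 ≤ q0 := (le_max_left _ _).trans (le_max_left _ _)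
  have hq0b : 2 * k ≤ q0 := (le_max_right _ _).trans (le_max_left _ _)
  have hq0c : 4 * W / (ε' * n * t) ≤ q0 := le_max_right _ _
  have hq0p : 0 < q0 := lt_of_lt_of_le (by positivity) hq0a
  refine ⟨δ0 / n, q0, by positivity, hq0p, fun N q β hβ hq hsum f hf hLev => ?_⟩
  set η : ℝ := δ0 / n with hη
  have hη0 : 0 ≤ η := by positivity
  have hnη : (n : ℝ) * η = δ0 := by rw [hη]; field_simp
  set u : Fin N → ℝ := fun i => 1 / q i with hu
  have hqp : ∀ i, 0 < q i := fun i => hq0p.trans_le (hq i)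
  have hu0 : ∀ i, 0 ≤ u i := fun i => by have := hqp i; positivity
  have huq : ∀ i, u i ≤ 1 / q0 := fun i => one_div_le_one_div_of_le hq0p (hq i)
  have huδ : ∀ i, u i ≤ δ0 := fun i => by
    refine (huq i).trans ?_
    rw [div_le_iff₀ hq0p]
    rw [div_le_iff₀ hδ0p] at hq0a
    linarith
  have huk : ∀ i, 2 * k * u i ≤ 1 := fun i => by
    have h5 : 2 * (k : ℝ) * u i ≤ 2 * k * (1 / q0) := mul_le_mul_of_nonneg_left (huq i) (by positivity)
    have h6 : 2 * (k : ℝ) * (1 / q0) ≤ 1 := by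
      rw [mul_one_div, div_le_one hq0p]; exact hq0b
    linarith
  have huhalf : ∀ i, 0 ≤ u i ∧ u i ≤ 1 / 2 := fun i => ⟨hu0 i, by linarith [huδ i]⟩
  have huS : ∑ i, u i ≤ S := by
    have h5 := (range_sum (η := η) hJ1 hsum (le_refl J) (Nat.le_mul_of_pos_right J (by positivity) : J ≤ n) (le_refl n)).2
    have h6 : univ.filter (fun i => J ≤ β i ∧ β i < n) = univ := by
      ext i; simp only [mem_filter, mem_univ, true_and, iff_true]; exact hβ i
    rw [h6] at h5
    have h7 : ((n : ℝ) - J) * η ≤ 1 := by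
      have : ((n : ℝ) - J) * η ≤ n * η := mul_le_mul_of_nonneg_right (by linarith) hη0
      rw [hnη] at this
      linarith
    linarith
  have hsu0 : 0 ≤ ∑ i, u i := sum_nonneg fun i _ => hu0 i
  -- windows and cells
  set win : Fin N → ℕ := fun i => wn ρ J (β i) with hwin
  set cel : Fin N → Fin ((ρ - 1) * J) := ce hρ hJ1 hβ with hcel
  have hwL : ∀ i, win i < L := fun i => wn_lt hρ hJ1 (hβ i).1 (hβ i).2
  have hδx : δ0 + 2 * ((n : ℝ) * η) ≤ 1 / 8 := by rw [hnη]; linarith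
  have hcell := fun l (hl : l < L) c => cell_prod (δ := δ0) hρ hJ hβ hη0 hsum hδ0p.le hδx
    (fun i => ⟨hu0 i, huδ i⟩) hl c
  have hwp := fun l (hl : l < L) => window_prod (l := l) hρ hJ1 hβ hη0 hsum huhalf hl
  set B : ℕ → ℝ := fun l => 1 / (b + D * (l : ℝ)) with hB
  have hB0' : ∀ l, 0 < B l := fun l => by simp only [hB]; positivity
  have hSite := hsite N L k win cel u (fun l => ρ ^ l) t B D hL hwL huhalf ht0
    (fun l hl => ⟨Nat.one_le_pow _ _ (by omega), by
      have h5 : ((ρ ^ l : ℕ) : ℝ) ≤ (ρ : ℝ) ^ L := by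
        push_cast
        exact pow_le_pow_right₀ (by exact_mod_cast (by omega : 1 ≤ ρ)) hl.le
      calc ((ρ ^ l : ℕ) : ℝ) * t ≤ (ρ : ℝ) ^ L * t := mul_le_mul_of_nonneg_right h5 ht0.le
        _ = υ0 := by rw [ht]; field_simp⟩)
    (fun l _ => ⟨hB0' l, by
      simp only [hB]
      rw [div_le_iff₀ (by positivity)]
      have : 0 ≤ B0 * (D * (l : ℝ)) := by positivity
      nlinarith⟩)
    (fun l hl c => (hcell l hl c).2.1)
    (fun l hl => by
      have h5 := hDb (fun c => pc win cel u l c / (1 - pc win cel u l c)) (fun c => by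
        obtain ⟨h6, h7, h8⟩ := hcell l hl c
        refine ⟨div_nonneg h6 (by linarith), ?_⟩
        refine h8.trans ?_
        have : 4 * (δ0 + 2 * ((n : ℝ) * η)) ≤ y0 := by rw [hnη]; linarith
        linarith)
      have h6 : (1 / 2 + ε) * (∑ A ∈ univ.erase (∅ : Finset (Fin ((ρ - 1) * J))),
          (∏ c ∈ A, pc win cel u l c / (1 - pc win cel u l c)) /
            (sz (fun c : Fin ((ρ - 1) * J) => J + (c : ℕ)) A : ℝ)) + ε ≤ (1 / 2 + ε) * (SE ρ J + ε) + ε := by
        have := mul_le_mul_of_nonneg_left h5 (show 0 ≤ 1 / 2 + ε by linarith)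
        linarith
      exact h6)
    (fun l hl => by
      obtain ⟨h5, h6⟩ := hwp l (by omega)
      have h7 := B_rec hb hD hl hδb
      have h8 : (0 : ℝ) < ((ρ ^ l : ℕ) : ℝ) * B l := by
        have := hB0' l
        positivity
      have h9 : ((ρ ^ (l + 1) : ℕ) : ℝ) * (B (l + 1) + D * B (l + 1) ^ 2) ≤
          ((ρ ^ (l + 1) : ℕ) : ℝ) * ((1 - δ0) * B l) := mul_le_mul_of_nonneg_left h7 (Nat.cast_nonneg _)
      refine h9.trans ?_
      have h10 : ((ρ ^ (l + 1) : ℕ) : ℝ) * ((1 - δ0) * B l) = (ρ * (1 - (n : ℝ) * η)) * (((ρ ^ l : ℕ) : ℝ) * B l) := by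
        rw [hnη]; push_cast; ring
      rw [h10]
      exact mul_le_mul_of_nonneg_right h6 h8.le)
  obtain ⟨K, Kr, φ, hK1, hK2, hK3, hK4⟩ := hSite
  -- apply MULTI
  set ν : Fin N → ℕ := fun i => ρ ^ win i * (J + (cel i : ℕ)) with hν
  have hνβ : ∀ i, ν i ≤ β i := fun i => by
    have := (cell_iff (l := win i) (c := (cel i : ℕ)) hρ hJ1 (hβ i).1 (cel i).2).1 ⟨rfl, rfl⟩
    exact this.1
  set Z : ℝ := Real.exp (4 * k * ∑ i, u i ^ 2) with hZ
  set V : ℝ := ((ρ ^ (L - 1) : ℕ) : ℝ) * t * (∏ c, (1 - pc win cel u (L - 1) c))⁻¹ * B (L - 1) with hV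
  set W1 : ℝ := ((ρ ^ 0 : ℕ) : ℝ) * t * (B 0 + D * B 0 ^ 2) with hW1
  have hM := h1 N k n u ν t Z K Kr φ (fun T => (if T = ∅ then V else 0) - W1) f
    (fun i => ⟨hu0 i, huk i⟩) ht0 (Real.exp_pos _).le hf (Lev_mono hνβ hLev) hK1 hK2 hK3 hK4
  -- the left side
  set M : ℝ := ∑ γ, muU u γ * f γ with hMdef
  have hmu0 : ∀ γ : St N k, 0 ≤ muU u γ := muU_nonneg fun i => ⟨hu0 i, by linarith [huk i, mul_nonneg hk0.le (hu0 i)]⟩
  have hM0 : 0 ≤ M := sum_nonneg fun γ _ => mul_nonneg (hmu0 γ) (hf γ)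
  set MA : ℝ := ∑ γ, muU u γ * f γ * ((alive γ N).card : ℝ) with hMA
  have hleft : ∑ γ, muU u γ * f γ * ∑ a, ((if Ta γ a = ∅ then V else 0) - W1) = MA * V - k * W1 * M := by
    have e1 : ∀ γ : St N k, ∑ a, ((if Ta γ a = ∅ then V else 0) - W1) = ((alive γ N).card : ℝ) * V - k * W1 := by
      intro γ
      rw [sum_sub_distrib, alive_eq, ← sum_filter, sum_const, sum_const, card_univ, Fintype.card_fin,
        nsmul_eq_mul, nsmul_eq_mul]
    rw [sum_congr rfl fun γ _ => by rw [e1 γ]]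
    rw [hMA, hMdef, sum_mul, mul_sum, ← sum_sub_distrib]
    apply sum_congr rfl
    intro γ _
    ring
  rw [hleft] at hM
  -- the error term
  have herr : ∑ γ, muU u γ * f γ * (Z ^ k * Real.exp (∑ i, (20 * k ^ 2 * u i ^ 2 + if γ i = none then 0 else 2 * k * u i)) - 1) ≤
      ε' / 4 * (n * t) * M := by
    have hu2 : ∑ i, u i ^ 2 ≤ 1 / q0 * S := by
      calc ∑ i, u i ^ 2 ≤ ∑ i, 1 / q0 * u i := sum_le_sum fun i _ => by
            rw [sq]; exact mul_le_mul_of_nonneg_right (huq i) (hu0 i)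
        _ = 1 / q0 * ∑ i, u i := by rw [mul_sum]
        _ ≤ _ := mul_le_mul_of_nonneg_left huS (by positivity)
    have hu2' : ∑ i, u i ^ 2 ≤ S := by
      calc ∑ i, u i ^ 2 ≤ ∑ i, u i := sum_le_sum fun i _ => by nlinarith [hu0 i, (huhalf i).2]
        _ ≤ S := huS
    have hu20 : 0 ≤ ∑ i, u i ^ 2 := sum_nonneg fun i _ => sq_nonneg _
    have key : ∀ γ : St N k, Z ^ k * Real.exp (∑ i, (20 * k ^ 2 * u i ^ 2 + if γ i = none then 0 else 2 * k * u i)) - 1 ≤
        Real.exp X0 * (24 * k ^ 2 * S + 2 * k * ((univ.filter (fun i => γ i ≠ none)).card : ℝ)) / q0 := by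
      intro γ
      set x : ℝ := 24 * k ^ 2 * ∑ i, u i ^ 2 + ∑ i, (if γ i = none then 0 else 2 * k * u i) with hx
      have e1 : Z ^ k * Real.exp (∑ i, (20 * k ^ 2 * u i ^ 2 + if γ i = none then 0 else 2 * k * u i)) = Real.exp x := by
        rw [hZ, ← Real.exp_nat_mul, ← Real.exp_add, hx, sum_add_distrib, ← mul_sum]
        congr 1; ring
      rw [e1]
      have hx2 : 0 ≤ ∑ i, (if γ i = none then 0 else 2 * k * u i) := sum_nonneg fun i _ => by
        split_ifs
        · exact le_rfl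
        · have := hu0 i; positivity
      have hx0 : 0 ≤ x := by positivity
      have hxX : x ≤ X0 := by
        have h5 : ∑ i, (if γ i = none then 0 else 2 * k * u i) ≤ 2 * k * S := by
          calc ∑ i, (if γ i = none then 0 else 2 * k * u i) ≤ ∑ i, 2 * k * u i := sum_le_sum fun i _ => by
                split_ifs
                · have := hu0 i; positivity
                · exact le_rfl
            _ = 2 * k * ∑ i, u i := by rw [mul_sum]
            _ ≤ _ := mul_le_mul_of_nonneg_left huS (by positivity)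
        have h6 := mul_le_mul_of_nonneg_left hu2' (show 0 ≤ 24 * (k : ℝ) ^ 2 by positivity)
        rw [hx, hX0]; linarith
      refine (exp_sub_one_le hx0 hxX).trans ?_
      have hx1 : x ≤ (24 * k ^ 2 * S + 2 * k * ((univ.filter (fun i => γ i ≠ none)).card : ℝ)) / q0 := by
        have h5 : ∑ i, (if γ i = none then 0 else 2 * k * u i) ≤
            2 * k * ((univ.filter (fun i => γ i ≠ none)).card : ℝ) / q0 := by
          have e2 : ∑ i, (if γ i = none then 0 else 2 * k * u i) = ∑ i ∈ univ.filter (fun i => γ i ≠ none), 2 * k * u i := by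
            rw [sum_filter]
            apply sum_congr rfl
            intro i _
            by_cases h : γ i = none
            · simp [h]
            · simp [h]
          rw [e2]
          calc ∑ i ∈ univ.filter (fun i => γ i ≠ none), 2 * k * u i
              ≤ ∑ _i ∈ univ.filter (fun i => γ i ≠ none), 2 * k * (1 / q0) := sum_le_sum fun i _ =>
                mul_le_mul_of_nonneg_left (huq i) (by positivity)
            _ = _ := by rw [sum_const, nsmul_eq_mul]; ring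
        have h6 := mul_le_mul_of_nonneg_left hu2 (show 0 ≤ 24 * (k : ℝ) ^ 2 by positivity)
        rw [hx, add_div]
        have e3 : 24 * (k : ℝ) ^ 2 * (1 / q0 * S) = 24 * k ^ 2 * S / q0 := by ring
        rw [e3] at h6
        linarith
      calc x * Real.exp X0 ≤ (24 * k ^ 2 * S + 2 * k * ((univ.filter (fun i => γ i ≠ none)).card : ℝ)) / q0 * Real.exp X0 :=
            mul_le_mul_of_nonneg_right hx1 (Real.exp_pos _).le
        _ = _ := by ring
    have hH := h3 N k J n u β f hk hJ1 hn0 (fun i => (hβ i).1)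
      (fun i => ⟨hu0 i, by linarith [huk i, mul_nonneg hk0.le (hu0 i)]⟩) hf hLev
    have hH2 : k * ∑ i, u i + 12 * Real.sqrt ((k * ∑ i, u i) * (n / J)) + 24 * ((n : ℝ) / J) ≤ Hb := by
      have h5 : k * ∑ i, u i ≤ k * S := mul_le_mul_of_nonneg_left huS hk0.le
      have h6 : Real.sqrt ((k * ∑ i, u i) * (n / J)) ≤ Real.sqrt ((k * S) * (n / J)) :=
        Real.sqrt_le_sqrt (mul_le_mul_of_nonneg_right h5 (by positivity))
      rw [hHb]; linarith
    have hH3 : ∑ γ, muU u γ * f γ * ((univ.filter (fun i => γ i ≠ none)).card : ℝ) ≤ Hb * M :=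
      hH.trans (mul_le_mul_of_nonneg_right hH2 hM0)
    calc ∑ γ, muU u γ * f γ * (Z ^ k * Real.exp (∑ i, (20 * k ^ 2 * u i ^ 2 + if γ i = none then 0 else 2 * k * u i)) - 1)
        ≤ ∑ γ, muU u γ * f γ * (Real.exp X0 * (24 * k ^ 2 * S + 2 * k * ((univ.filter (fun i => γ i ≠ none)).card : ℝ)) / q0) :=
          sum_le_sum fun γ _ => mul_le_mul_of_nonneg_left (key γ) (mul_nonneg (hmu0 γ) (hf γ))
      _ = Real.exp X0 / q0 * (24 * k ^ 2 * S * M + 2 * k * ∑ γ, muU u γ * f γ * ((univ.filter (fun i => γ i ≠ none)).card : ℝ)) := by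
          rw [hMdef, mul_sum, mul_sum, ← sum_add_distrib, mul_sum]
          apply sum_congr rfl
          intro γ _
          ring
      _ ≤ Real.exp X0 / q0 * (24 * k ^ 2 * S * M + 2 * k * (Hb * M)) := by
          apply mul_le_mul_of_nonneg_left _ (by positivity)
          have := mul_le_mul_of_nonneg_left hH3 (show 0 ≤ 2 * (k : ℝ) by positivity)
          linarith
      _ = W / q0 * M := by rw [hW]; ring
      _ ≤ ε' / 4 * (n * t) * M := by
          apply mul_le_mul_of_nonneg_right _ hM0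
          rw [div_le_iff₀ hq0p]
          rw [div_le_iff₀ (by positivity)] at hq0c
          nlinarith
  -- conclusion
  have hVlow : (ρ : ℝ) ^ L * t * (1 - δ0) / (b + D * (L - 1)) ≤ V := by
    obtain ⟨h5, h6⟩ := hwp (L - 1) (by omega)
    have e1 : B (L - 1) = 1 / (b + D * (L - 1)) := by
      simp only [hB]; rw [Nat.cast_sub hL]; simp
    have hbL : 0 < b + D * ((L : ℝ) - 1) := by
      have : (0 : ℝ) ≤ (L : ℝ) - 1 := by
        have : (1 : ℝ) ≤ L := by exact_mod_cast hL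
        linarith
      positivity
    have e2 : (ρ : ℝ) ^ L * t * (1 - δ0) / (b + D * (L - 1)) =
        ((ρ ^ (L - 1) : ℕ) : ℝ) * t * (ρ * (1 - (n : ℝ) * η)) * B (L - 1) := by
      rw [e1, hnη]
      obtain ⟨L', rfl⟩ : ∃ L', L = L' + 1 := ⟨L - 1, by omega⟩
      simp only [Nat.add_sub_cancel]
      push_cast
      rw [pow_succ]; ring
    rw [e2, hV]
    apply mul_le_mul_of_nonneg_right _ (hB0' _).le
    exact mul_le_mul_of_nonneg_left h6 (by positivity)
  have hW1e : W1 = t * (1 / b + D / b ^ 2) := by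
    have e4 : B 0 = 1 / b := by simp only [hB, Nat.cast_zero, mul_zero, add_zero]
    rw [hW1, e4]; push_cast; ring
  have hMA0 : 0 ≤ MA := sum_nonneg fun γ _ => mul_nonneg (mul_nonneg (hmu0 γ) (hf γ)) (Nat.cast_nonneg _)
  have hmain : MA * ((ρ : ℝ) ^ L * t * (1 - δ0) / (b + D * (L - 1))) ≤
      (ρ : ℝ) ^ L * t * (J * (1 + ε' / 4) + (1 / b + D / b ^ 2)) * M := by
    have h5 : MA * ((ρ : ℝ) ^ L * t * (1 - δ0) / (b + D * (L - 1))) ≤ MA * V := mul_le_mul_of_nonneg_left hVlow hMA0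
    have h6 : MA * V ≤ n * t * M + k * W1 * M + ε' / 4 * (n * t) * M := by
      have := hM.trans (add_le_add le_rfl herr)
      linarith
    have h7 : (k : ℝ) ≤ (ρ : ℝ) ^ L := by exact_mod_cast hkL
    have h8 : k * W1 * M ≤ (ρ : ℝ) ^ L * W1 * M := by
      apply mul_le_mul_of_nonneg_right _ hM0
      apply mul_le_mul_of_nonneg_right h7
      rw [hW1e]; positivity
    have e3 : (n : ℝ) = J * (ρ : ℝ) ^ L := by rw [hn]; push_cast; ring
    rw [e3] at h6
    rw [hW1e] at h8 h6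
    refine h5.trans (h6.trans ?_)
    calc (J : ℝ) * (ρ : ℝ) ^ L * t * M + k * (t * (1 / b + D / b ^ 2)) * M + ε' / 4 * (J * (ρ : ℝ) ^ L * t) * M
        ≤ (J : ℝ) * (ρ : ℝ) ^ L * t * M + (ρ : ℝ) ^ L * (t * (1 / b + D / b ^ 2)) * M + ε' / 4 * (J * (ρ : ℝ) ^ L * t) * M := by
          linarith
      _ = _ := by ring
  have hgoal1 : ∑ γ, muP q γ * f γ * ((alive γ N).card : ℝ) = MA := by
    rw [hMA]; apply sum_congr rfl; intro γ _; rw [muP_eq]
  have hgoal2 : ∑ γ, muP q γ * f γ = M := by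
    rw [hMdef]; apply sum_congr rfl; intro γ _; rw [muP_eq]
  rw [hgoal1, hgoal2]
  have hbL : 0 < b + D * ((L : ℝ) - 1) := by
    have : (0 : ℝ) ≤ (L : ℝ) - 1 := by
      have : (1 : ℝ) ≤ L := by exact_mod_cast hL
      linarith
    positivity
  set G : ℝ := b + D * ((L : ℝ) - 1) with hG
  set Rt : ℝ := (ρ : ℝ) ^ L * t with hRt
  have hRt0 : 0 < Rt := by positivity
  have hδ1 : 0 < 1 - δ0 := by linarith
  have h9 : MA * (1 - δ0) ≤ G * (J * (1 + ε' / 4) + (1 / b + D / b ^ 2)) * M := by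
    have h10 : MA * (Rt * (1 - δ0) / G) * G = Rt * (MA * (1 - δ0)) := by
      field_simp
    have h11 := mul_le_mul_of_nonneg_right hmain hbL.le
    rw [h10] at h11
    have h12 : Rt * (MA * (1 - δ0)) ≤ Rt * (G * (J * (1 + ε' / 4) + (1 / b + D / b ^ 2)) * M) := by
      calc Rt * (MA * (1 - δ0)) ≤ Rt * (J * (1 + ε' / 4) + (1 / b + D / b ^ 2)) * M * G := h11
        _ = _ := by ring
    exact le_of_mul_le_mul_left h12 hRt0
  -- (1 + ε'/4) ≤ (1 + ε') (1 - δ0)
  have h13 : 1 + ε' / 4 ≤ (1 + ε') * (1 - δ0) := by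
    have : (1 + ε') * δ0 ≤ ε' / 4 := by
      calc (1 + ε') * δ0 ≤ (1 + ε') * (ε' / (4 * (1 + ε'))) := mul_le_mul_of_nonneg_left hδa (by linarith)
        _ = ε' / 4 := by field_simp
    nlinarith
  have hE0 : 0 ≤ 1 / b + D / b ^ 2 := by positivity
  have h14 : J * (1 + ε' / 4) + (1 / b + D / b ^ 2) ≤ (1 - δ0) * ((1 + ε') * (J + (1 / b + D / b ^ 2))) := by
    have h15 := mul_le_mul_of_nonneg_left h13 hJR.le
    have h16 : 1 / b + D / b ^ 2 ≤ (1 + ε') * (1 - δ0) * (1 / b + D / b ^ 2) :=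
      le_mul_of_one_le_left hE0 (by linarith)
    calc J * (1 + ε' / 4) + (1 / b + D / b ^ 2) ≤ J * ((1 + ε') * (1 - δ0)) + (1 + ε') * (1 - δ0) * (1 / b + D / b ^ 2) :=
          add_le_add h15 h16
      _ = _ := by ring
  have h17 : MA * (1 - δ0) ≤ (1 - δ0) * (G * ((1 + ε') * (J + (1 / b + D / b ^ 2))) * M) := by
    refine h9.trans ?_
    have h18 := mul_le_mul_of_nonneg_left h14 (mul_nonneg hbL.le hM0)
    calc G * (J * (1 + ε' / 4) + (1 / b + D / b ^ 2)) * M = G * M * (J * (1 + ε' / 4) + (1 / b + D / b ^ 2)) := by ring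
      _ ≤ G * M * ((1 - δ0) * ((1 + ε') * (J + (1 / b + D / b ^ 2)))) := h18
      _ = _ := by ring
  have h19 : MA ≤ G * ((1 + ε') * (J + (1 / b + D / b ^ 2))) * M := by
    have : (1 - δ0) * MA ≤ (1 - δ0) * (G * ((1 + ε') * (J + (1 / b + D / b ^ 2))) * M) := by
      rw [mul_comm (1 - δ0) MA]; exact h17
    exact le_of_mul_le_mul_left this hδ1
  refine h19.trans (le_of_eq ?_)
  field_simp

end Pool.Agent.Run7.h962.NW
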