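import Pool.Agent.Run7.h962.NW.In4
import Pool.Agent.N422.NWS.EVAL

/-! # Part PSs (helper962): the sharp limit in the model -/

set_option autoImplicit false

open Finset

namespace Pool.Agent.Run7.h962.NW

open Pool.Agent.N422.NW Pool.Agent.N422.NWS Pool.Agent.N422.SL

theorem t_PSs (h1 : S_IN) (h2 : S_EVAL) : S_PSs := by
  obtain ⟨CE, hCE, hEV⟩ := h2
  intro ε hε
  set g : ℝ := Real.exp (-Real.eulerMascheroniConstant) with hg
  have hg0 : 0 < g := Real.exp_pos _
  have hg1 : g ≤ 1 := by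
    rw [hg]
    apply Real.exp_le_one_iff.2
    linarith [Real.one_half_lt_eulerMascheroniConstant]
  -- choice of ρ
  obtain ⟨ρ, hρ2, hρ⟩ : ∃ ρ : ℕ, 2 ≤ ρ ∧ 8 * (CE / 2 + 1) ≤ ε * Real.log ρ := by
    have h3 : Filter.Tendsto (fun r : ℕ => ε * Real.log (r : ℝ)) Filter.atTop Filter.atTop :=
      (Real.tendsto_log_atTop.comp tendsto_natCast_atTop_atTop).const_mul_atTop hε
    obtain ⟨r, hr⟩ := ((h3.eventually_ge_atTop (8 * (CE / 2 + 1))).and (Filter.eventually_ge_atTop 2)).exists
    exact ⟨r, hr.2, hr.1⟩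
  obtain ⟨J0, hJ0, hJev⟩ := hEV ρ hρ2
  set J : ℕ := max J0 2 with hJ
  have hJ2 : 2 ≤ J := le_max_right _ _
  have hJR : (2 : ℝ) ≤ J := by exact_mod_cast hJ2
  have hSE : J * SE ρ J ≤ g * Real.log ρ + CE := hJev J (le_max_left _ _)
  have hlρ : 0 < Real.log ρ := Real.log_pos (by exact_mod_cast (by omega : 1 < ρ))
  have hSE0 := SE_nonneg ρ J
  -- choice of ε1
  set ε1 : ℝ := min 1 (1 / (J * SE ρ J + 3 * J)) with hε1
  have hden : 0 < J * SE ρ J + 3 * J := by positivity
  have hε1p : 0 < ε1 := by positivity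
  have hε1a : ε1 ≤ 1 := min_le_left _ _
  have hε1b : ε1 * (J * SE ρ J + 3 * J) ≤ 1 := by
    calc ε1 * (J * SE ρ J + 3 * J) ≤ 1 / (J * SE ρ J + 3 * J) * (J * SE ρ J + 3 * J) :=
          mul_le_mul_of_nonneg_right (min_le_right _ _) hden.le
      _ = 1 := by field_simp
  set D : ℝ := DD ε1 ρ J with hD
  have hDp : 0 < D := DD_pos hε1p
  have hJD : J * D ≤ g / 2 * Real.log ρ + (CE / 2 + 1) := by
    have e1 : J * D = 1 / 2 * (J * SE ρ J) + ε1 * (J * SE ρ J + J * (1 / 2 + ε1) + J) := by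
      rw [hD]; unfold DD; ring
    rw [e1]
    have h4 : ε1 * (J * SE ρ J + J * (1 / 2 + ε1) + J) ≤ ε1 * (J * SE ρ J + 3 * J) := by
      apply mul_le_mul_of_nonneg_left _ hε1p.le
      nlinarith
    linarith
  have hJDρ : J * D / Real.log ρ ≤ g / 2 + ε / 8 := by
    rw [div_le_iff₀ hlρ]
    nlinarith
  obtain ⟨B0, hB0, hIN⟩ := h1 ρ J ε1 hρ2 hJ2 hε1p
  -- choice of b
  set ε2 : ℝ := min 1 ε / 16 with hε2
  have hε2p : 0 < ε2 := by positivity
  have hε2a : ε2 ≤ 1 / 16 := by rw [hε2]; linarith [min_le_left 1 ε]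
  have hε2b : ε2 ≤ ε / 16 := by rw [hε2]; linarith [min_le_right 1 ε]
  set b : ℝ := max (1 / B0) (max 1 ((1 + D) / ε2)) with hb
  have hb1 : 1 / B0 ≤ b := le_max_left _ _
  have hb2 : 1 ≤ b := (le_max_left _ _).trans (le_max_right _ _)
  have hb3 : (1 + D) / ε2 ≤ b := (le_max_right _ _).trans (le_max_right _ _)
  have hb0 : 0 < b := by linarith
  have hbB : 1 ≤ b * B0 := by rwa [div_le_iff₀ hB0] at hb1
  have hsmall : (1 / b + D / b ^ 2) / J ≤ ε2 := by
    have h4 : 1 / b + D / b ^ 2 ≤ (1 + D) / b := by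
      rw [add_div]
      have : D / b ^ 2 ≤ D / b := by
        apply div_le_div_of_nonneg_left hDp.le hb0
        nlinarith
      linarith
    have h5 : (1 + D) / b ≤ ε2 := by
      rw [div_le_iff₀ hb0]
      rw [div_le_iff₀ hε2p] at hb3
      linarith
    calc (1 / b + D / b ^ 2) / J ≤ (1 / b + D / b ^ 2) / 1 := by
          apply div_le_div_of_nonneg_left (by positivity) (by norm_num) (by linarith)
      _ ≤ ε2 := by rw [div_one]; linarith
  have hsmall0 : 0 ≤ (1 / b + D / b ^ 2) / J := by positivity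
  refine ⟨4 * (J * b), by positivity, fun k hk => ?_⟩
  set L : ℕ := Nat.log ρ k + 1 with hL
  have hkL : k ≤ ρ ^ L := (Nat.lt_pow_succ_log_self (by omega) k).le
  have hlogL : (Nat.log ρ k : ℝ) * Real.log ρ ≤ Real.log k := by
    rw [← Real.log_pow]
    apply Real.log_le_log (by positivity)
    have := Nat.pow_log_le_self ρ (show k ≠ 0 by omega)
    exact_mod_cast this
  obtain ⟨η, q0, hη, hq0, hmain⟩ := hIN k L b ε2 hk (by omega) hkL hb0 hbB hε2p
  refine ⟨J, J * ρ ^ L, η, max q0 k, by omega, Nat.le_mul_of_pos_right J (by positivity), hη, lt_max_of_lt_left hq0, ?_⟩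
  intro N q β hβ hq hsum f hf hLev
  refine (hmain N q β hβ (fun i => (le_max_left _ _).trans (hq i)) hsum f hf hLev).trans ?_
  have hk1 : 0 ≤ Real.log k := Real.log_nonneg (by exact_mod_cast hk)
  have hM0 : 0 ≤ ∑ γ, muP q γ * f γ := by
    apply sum_nonneg
    intro γ _
    rw [muP_eq]
    refine mul_nonneg (muU_nonneg (fun i => ?_) γ) (hf γ)
    have hqi : 0 < q i := hq0.trans_le ((le_max_left _ _).trans (hq i))
    refine ⟨by positivity, ?_⟩
    rw [mul_one_div, div_le_one hqi]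
    exact (le_max_right _ _).trans (hq i)
  · apply mul_le_mul_of_nonneg_right _ hM0
    have eL : ((L : ℝ) - 1) = (Nat.log ρ k : ℝ) := by rw [hL]; push_cast; ring
    rw [eL]
    set l : ℝ := (Nat.log ρ k : ℝ) with hl
    have hl0 : 0 ≤ l := Nat.cast_nonneg _
    have h6 : J * (b + D * l) ≤ J * b + (g / 2 + ε / 8) * Real.log k := by
      have h7 : J * D * l ≤ (J * D / Real.log ρ) * Real.log k := by
        rw [div_mul_eq_mul_div, le_div_iff₀ hlρ]
        calc J * D * l * Real.log ρ = J * D * (l * Real.log ρ) := by ring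
          _ ≤ J * D * Real.log k := mul_le_mul_of_nonneg_left hlogL (by positivity)
      have h8 : (J * D / Real.log ρ) * Real.log k ≤ (g / 2 + ε / 8) * Real.log k :=
        mul_le_mul_of_nonneg_right hJDρ hk1
      calc J * (b + D * l) = J * b + J * D * l := by ring
        _ ≤ _ := by linarith
    have h9 : (1 + ε2) * (1 + (1 / b + D / b ^ 2) / J) ≤ 1 + 3 * ε2 := by
      calc (1 + ε2) * (1 + (1 / b + D / b ^ 2) / J) ≤ (1 + ε2) * (1 + ε2) :=
            mul_le_mul_of_nonneg_left (by linarith) (by linarith)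
        _ ≤ 1 + 3 * ε2 := by nlinarith
    have h10 : 0 ≤ J * (b + D * l) := by positivity
    calc (1 + ε2) * (1 + (1 / b + D / b ^ 2) / J) * (J * (b + D * l)) ≤ (1 + 3 * ε2) * (J * (b + D * l)) :=
          mul_le_mul_of_nonneg_right h9 h10
      _ ≤ (1 + 3 * ε2) * (J * b + (g / 2 + ε / 8) * Real.log k) := mul_le_mul_of_nonneg_left h6 (by linarith)
      _ = (1 + 3 * ε2) * (J * b) + (1 + 3 * ε2) * (g / 2 + ε / 8) * Real.log k := by ring
      _ ≤ 4 * (J * b) + (g / 2 + ε) * Real.log k := by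
          apply add_le_add
          · apply mul_le_mul_of_nonneg_right _ (by positivity)
            linarith
          · apply mul_le_mul_of_nonneg_right _ hk1
            -- (1+3ε2)(g/2+ε/8) ≤ g/2+ε
            have h11 : 3 * ε2 * (g / 2) ≤ 3 * (ε / 16) * (1 / 2) := by
              apply mul_le_mul
              · linarith
              · linarith
              · positivity
              · positivity
            have h12 : 3 * ε2 * (ε / 8) ≤ 3 * (1 / 16) * (ε / 8) := by
              apply mul_le_mul_of_nonneg_right _ (by positivity)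
              linarith
            nlinarith
      _ = (g / 2 + ε) * Real.log k + 4 * (J * b) := by ring

end Pool.Agent.Run7.h962.NW
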