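import Pool.Agent.Run7.h962.NW.ALL

/-! # The expected number of primes (helper962) -/

set_option autoImplicit false

open Finset

namespace Pool.Agent.Run7.h962.NW

lemma card_fib (M d b : ℕ) (hM : 0 < M) (hd : d ∣ M) (hb : Nat.Coprime b d) :
    ((range M).filter (fun m => m % d = b % d ∧ Nat.Coprime m M)).card * Nat.totient d = Nat.totient M := by
  have : NeZero M := ⟨hM.ne'⟩
  have hd0 : 0 < d := Nat.pos_of_dvd_of_pos hd hM
  have : NeZero d := ⟨hd0.ne'⟩
  classical
  set f := ZMod.unitsMap hd with hf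
  have hsurj : Function.Surjective f := ZMod.unitsMap_surjective hd
  set v0 : (ZMod d)ˣ := ZMod.unitOfCoprime b hb with hv0
  have h1 : ∀ v : (ZMod d)ˣ, (univ.filter (fun u => f u = v)).card = (univ.filter (fun u => f u = v0)).card := by
    intro v
    exact MonoidHom.card_fiber_eq_of_mem_range f (hsurj v) (hsurj v0)
  have h2 : Fintype.card (ZMod M)ˣ = ∑ v : (ZMod d)ˣ, (univ.filter (fun u => f u = v)).card := by
    rw [← Finset.card_univ]
    exact Finset.card_eq_sum_card_fiberwise (fun _ _ => mem_coe.2 (mem_univ _))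
  rw [ZMod.card_units_eq_totient] at h2
  rw [h2, Finset.sum_congr rfl (fun v _ => h1 v), Finset.sum_const, Finset.card_univ, ZMod.card_units_eq_totient,
    smul_eq_mul, mul_comm]
  congr 1
  symm
  apply Finset.card_bij (fun (u : (ZMod M)ˣ) _ => (u : ZMod M).val)
  · intro u hu
    rw [mem_filter] at hu ⊢
    refine ⟨mem_range.2 (ZMod.val_lt _), ?_, ZMod.val_coe_unit_coprime u⟩
    have h3 : ((f u : (ZMod d)ˣ) : ZMod d) = (b : ZMod d) := by
      rw [hu.2, hv0, ZMod.coe_unitOfCoprime]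
    have h4 : ((f u : (ZMod d)ˣ) : ZMod d) = (((u : ZMod M).val : ℕ) : ZMod d) := by
      rw [hf]
      simp [ZMod.unitsMap_def]
    rw [h4] at h3
    exact (ZMod.natCast_eq_natCast_iff' _ _ _).1 h3
  · intro u _ v _ huv
    exact Units.ext (ZMod.val_injective M huv)
  · intro m hm
    rw [mem_filter, mem_range] at hm
    refine ⟨ZMod.unitOfCoprime m hm.2.2, ?_, ?_⟩
    · rw [mem_filter]
      refine ⟨mem_univ _, ?_⟩
      apply Units.ext
      have h4 : ((f (ZMod.unitOfCoprime m hm.2.2) : (ZMod d)ˣ) : ZMod d) = (m : ZMod d) := by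
        rw [hf]
        simp [ZMod.unitsMap_def]
      rw [h4, hv0, ZMod.coe_unitOfCoprime]
      exact (ZMod.natCast_eq_natCast_iff' _ _ _).2 hm.2.1
    · rw [ZMod.coe_unitOfCoprime, ZMod.val_natCast, Nat.mod_eq_of_lt hm.1]

lemma card_fib0 (M d b : ℕ) (hd : d ∣ M) (hb : ¬ Nat.Coprime b d) :
    ((range M).filter (fun m => m % d = b % d ∧ Nat.Coprime m M)).card = 0 := by
  rw [Finset.card_eq_zero, Finset.filter_eq_empty_iff]
  rintro m _ ⟨h1, h2⟩
  apply hb
  have h3 : Nat.Coprime m d := Nat.Coprime.coprime_dvd_right hd h2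
  have h4 : Nat.gcd b d = Nat.gcd m d := by
    rw [← Nat.mod_add_div b d, ← h1]
    conv_rhs => rw [← Nat.mod_add_div m d]
    simp [Nat.gcd_comm]
  rw [Nat.Coprime, h4]
  exact h3

/-- translation of the period -/
lemma card_shift (M d a h : ℕ) (hd : d ∣ M) :
    ((range M).filter (fun n => n % d = a % d ∧ Nat.Coprime (n + h) M)).card =
      ((range M).filter (fun m => m % d = (a + h) % d ∧ Nat.Coprime m M)).card := by
  have hper : Function.Periodic (fun m => m % d = (a + h) % d ∧ Nat.Coprime m M) M := by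
    intro m
    simp only [eq_iff_iff]
    have e1 : (m + M) % d = m % d := by
      obtain ⟨e, rfl⟩ := hd
      rw [Nat.add_mul_mod_self_left]
    rw [e1]
    simp
  have h1 := Nat.filter_Ico_card_eq_of_periodic h M _ hper
  rw [Nat.count_eq_card_filter_range] at h1
  rw [← h1]
  symm
  apply Finset.card_bij' (fun m _ => m - h) (fun n _ => n + h)
  · intro m hm
    rw [mem_filter, mem_Ico] at hm
    have e2 : m - h + h = m := by omega
    rw [mem_filter, mem_range, e2]
    refine ⟨by omega, ?_, hm.2.2⟩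
    have h3 : (m - h + h) % d = (a + h) % d := by rw [e2]; exact hm.2.1
    exact Nat.ModEq.add_right_cancel' h h3
  · intro n hn
    rw [mem_filter, mem_range] at hn
    rw [mem_filter, mem_Ico]
    refine ⟨by omega, ?_, hn.2.2⟩
    exact Nat.ModEq.add_right h hn.2.1
  · intro m hm
    rw [mem_filter, mem_Ico] at hm
    change m - h + h = m
    omega
  · intro n _
    simp

/-- the mean of a function of `n mod d` over the `n` with `n + h` coprime to `M` -/
lemma sum_cop (M d h : ℕ) (hM : 0 < M) (hd : d ∣ M) (F : ℕ → ℝ) :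
    ∑ n ∈ (range M).filter (fun n => Nat.Coprime (n + h) M), F (n % d) =
      (Nat.totient M : ℝ) / Nat.totient d * ∑ a ∈ (range d).filter (fun a => Nat.Coprime (a + h) d), F a := by
  have hd0 : 0 < d := Nat.pos_of_dvd_of_pos hd hM
  have hphi : (Nat.totient d : ℝ) ≠ 0 := by
    exact_mod_cast (Nat.totient_pos.2 hd0).ne'
  have h1 : ∑ n ∈ (range M).filter (fun n => Nat.Coprime (n + h) M), F (n % d) =
      ∑ a ∈ range d, ∑ n ∈ ((range M).filter (fun n => Nat.Coprime (n + h) M)).filter (fun n => n % d = a), F (n % d) := by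
    symm
    apply Finset.sum_fiberwise_of_maps_to
    intro n _
    exact mem_range.2 (Nat.mod_lt _ hd0)
  rw [h1, Finset.sum_filter, Finset.mul_sum]
  apply Finset.sum_congr rfl
  intro a ha
  rw [mem_range] at ha
  have h2 : ∑ n ∈ ((range M).filter (fun n => Nat.Coprime (n + h) M)).filter (fun n => n % d = a), F (n % d) =
      (((range M).filter (fun n => n % d = a % d ∧ Nat.Coprime (n + h) M)).card : ℝ) * F a := by
    rw [Finset.filter_filter]
    have e3 : (range M).filter (fun n => Nat.Coprime (n + h) M ∧ n % d = a) =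
        (range M).filter (fun n => n % d = a % d ∧ Nat.Coprime (n + h) M) := by
      apply Finset.filter_congr
      intro n _
      rw [Nat.mod_eq_of_lt ha]
      tauto
    rw [e3]
    rw [Finset.sum_congr rfl (g := fun _ => F a)]
    · rw [Finset.sum_const, nsmul_eq_mul]
    · intro n hn
      rw [mem_filter, Nat.mod_eq_of_lt ha] at hn
      rw [hn.2.1]
  rw [h2, card_shift M d a h hd]
  split_ifs with hc
  · have h3 := card_fib M d (a + h) hM hd hc
    have h4 : (((range M).filter (fun m => m % d = (a + h) % d ∧ Nat.Coprime m M)).card : ℝ) * Nat.totient d =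
        Nat.totient M := by exact_mod_cast h3
    rw [eq_comm, ← h4]
    field_simp
  · rw [card_fib0 M d (a + h) hd hc]
    simp

lemma cop_iff (Q m : ℕ) : Nat.Coprime m Q.factorial ↔ ∀ p ∈ range (Q + 1), p.Prime → ¬ p ∣ m := by
  constructor
  · intro h p hp hpp hd
    rw [mem_range] at hp
    have h1 : p ∣ Q.factorial := (Nat.Prime.dvd_factorial hpp).2 (by omega)
    have h2 : p ∣ 1 := by
      rw [← h]
      exact Nat.dvd_gcd hd h1
    exact hpp.one_lt.ne' (Nat.dvd_one.1 h2)
  · intro h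
    apply Nat.Coprime.symm
    apply Nat.coprime_of_dvd
    intro p hpp h1 h2
    exact h p (mem_range.2 (by have := (Nat.Prime.dvd_factorial hpp).1 h1; omega)) hpp h2

lemma tot_fact (Q : ℕ) : (Nat.totient Q.factorial : ℝ) =
    Q.factorial * ∏ p ∈ (Icc 1 Q).filter Nat.Prime, (1 - 1 / (p : ℝ)) := by
  have h1 := Nat.totient_eq_mul_prod_factors Q.factorial
  have h2 : Q.factorial.primeFactors = (Icc 1 Q).filter Nat.Prime := by
    ext p
    rw [Nat.mem_primeFactors, mem_filter, mem_Icc]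
    constructor
    · rintro ⟨h3, h4, _⟩
      exact ⟨⟨h3.one_lt.le, (Nat.Prime.dvd_factorial h3).1 h4⟩, h3⟩
    · rintro ⟨h3, h4⟩
      exact ⟨h4, (Nat.Prime.dvd_factorial h4).2 h3.2, Q.factorial_ne_zero⟩
  rw [h2] at h1
  have h3 : ((Nat.totient Q.factorial : ℚ) : ℝ) =
      (((Q.factorial : ℚ) * ∏ p ∈ (Icc 1 Q).filter Nat.Prime, (1 - (p : ℚ)⁻¹) : ℚ) : ℝ) := by rw [h1]
  push_cast at h3
  rw [h3]
  congr 1
  apply Finset.prod_congr rfl
  intro p _
  rw [one_div]

open Pool.Agent.N422.NW Pool.Agent.N422.NWS Pool.Agent.N422.SL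

/-- the expected number of primes: the sum over `n` with `n + h` free of primes `≤ Q` -/
lemma surv_sum (Q h : ℕ) (c : ℕ → ℕ → ℝ) :
    ∑ n ∈ (range Q.factorial).filter (fun n => ∀ p ∈ range (Q + 1), p.Prime → ¬ p ∣ n + h), wt Q c n =
      (Nat.totient Q.factorial : ℝ) * ∑ d ∈ Icc 1 Q,
        (∑ a ∈ (range d).filter (fun a => Nat.Coprime (a + h) d), c d a) / Nat.totient d := by
  have e1 : (range Q.factorial).filter (fun n => ∀ p ∈ range (Q + 1), p.Prime → ¬ p ∣ n + h) =
      (range Q.factorial).filter (fun n => Nat.Coprime (n + h) Q.factorial) := by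
    apply Finset.filter_congr
    intro n _
    rw [cop_iff]
  rw [e1]
  unfold wt
  rw [Finset.sum_comm, Finset.mul_sum]
  apply Finset.sum_congr rfl
  intro d hd
  rw [mem_Icc] at hd
  rw [sum_cop Q.factorial d h Q.factorial_pos (Nat.dvd_factorial hd.1 hd.2) (fun a => c d a)]
  ring

theorem fin_primes : ∀ ε : ℝ, 0 < ε → ∃ C : ℝ, 0 ≤ C ∧ ∀ (k : ℕ) (B : ℝ), 1 ≤ k → ∃ Q0 : ℕ, ∀ Q : ℕ, Q0 ≤ Q →
    ∀ H : Finset ℕ, H.card = k → (∀ h ∈ H, (h : ℝ) ≤ (Q : ℝ) ^ B) → ∀ c : ℕ → ℕ → ℝ, (∀ n, 0 ≤ wt Q c n) →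
    ∑ h ∈ H, ∑ d ∈ Icc 1 Q, (∑ a ∈ (range d).filter (fun a => Nat.Coprime (a + h) d), c d a) / Nat.totient d ≤
      ((1 / 2 + ε) * Real.log k + C) * Real.log Q * ((∑ n ∈ range Q.factorial, wt Q c n) / Q.factorial) := by
  intro ε hε
  set G := Real.exp Real.eulerMascheroniConstant with hG
  have hG0 : 0 < G := Real.exp_pos _
  have hGi : Real.exp (-Real.eulerMascheroniConstant) = G⁻¹ := by rw [Real.exp_neg]
  -- constants
  set δ1 : ℝ := ε / (2 * (G + 1)) with hδ1
  have hδ1p : 0 < δ1 := by positivity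
  set δ2 : ℝ := min 1 (G * ε) with hδ2
  have hδ2p : 0 < δ2 := by positivity
  obtain ⟨C, hC, h1⟩ := fin_all δ1 hδ1p
  obtain ⟨Q1, h2⟩ := t_VQ.1 δ2 hδ2p
  refine ⟨C * (G + 1), by positivity, fun k B hk => ?_⟩
  obtain ⟨Q0, h3⟩ := h1 k B hk
  refine ⟨max Q0 (max Q1 1), fun Q hQ H hH hHB c hc => ?_⟩
  have hQ0 : Q0 ≤ Q := le_trans (le_max_left _ _) hQ
  have hQ1 : Q1 ≤ Q := le_trans ((le_max_left _ _).trans (le_max_right _ _)) hQ
  have hQ2 : 1 ≤ Q := le_trans ((le_max_right _ _).trans (le_max_right _ _)) hQ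
  have h4 := h3 Q hQ0 H hH hHB c hc
  have h5 := h2 Q hQ1
  set V := ∏ p ∈ (Icc 1 Q).filter Nat.Prime, (1 - 1 / (p : ℝ)) with hV
  have hVp : 0 < V := by
    rw [hV]
    apply Finset.prod_pos
    intro p hp
    rw [mem_filter] at hp
    have hp1 : (1 : ℝ) < p := by exact_mod_cast hp.2.one_lt
    have : 1 / (p : ℝ) < 1 := by rw [div_lt_one (by linarith)]; exact hp1
    linarith
  set M := ∑ n ∈ range Q.factorial, wt Q c n with hM
  have hM0 : 0 ≤ M := Finset.sum_nonneg (fun n _ => hc n)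
  set E := ∑ h ∈ H, ∑ d ∈ Icc 1 Q, (∑ a ∈ (range d).filter (fun a => Nat.Coprime (a + h) d), c d a) / Nat.totient d with hE
  have hfac : (0 : ℝ) < Q.factorial := by exact_mod_cast Q.factorial_pos
  have h6 : ∑ n ∈ range Q.factorial, wt Q c n *
      ((H.filter (fun h => ∀ p ∈ range (Q + 1), p.Prime → ¬ p ∣ n + h)).card : ℝ) =
      (Q.factorial * V) * E := by
    rw [← tot_fact, hE, Finset.mul_sum]
    have e2 : ∀ h ∈ H, (Nat.totient Q.factorial : ℝ) * ∑ d ∈ Icc 1 Q,
        (∑ a ∈ (range d).filter (fun a => Nat.Coprime (a + h) d), c d a) / Nat.totient d =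
        ∑ n ∈ range Q.factorial, wt Q c n * (if ∀ p ∈ range (Q + 1), p.Prime → ¬ p ∣ n + h then 1 else 0) := by
      intro h _
      rw [← surv_sum, Finset.sum_filter]
      apply Finset.sum_congr rfl
      intro n _
      split_ifs <;> simp
    rw [Finset.sum_congr rfl e2, Finset.sum_comm]
    apply Finset.sum_congr rfl
    intro n _
    rw [← Finset.mul_sum, Finset.card_filter]
    push_cast
    rfl
  rw [h6, hGi] at h4
  have hlogk : 0 ≤ Real.log k := Real.log_nonneg (by exact_mod_cast hk)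
  have hlogQ : 0 ≤ Real.log Q := Real.log_nonneg (by exact_mod_cast hQ2)
  have h7 : E ≤ V⁻¹ * (((G⁻¹ / 2 + δ1) * Real.log k + C) * (M / Q.factorial)) := by
    rw [le_inv_mul_iff₀ hVp]
    have : V * E = (Q.factorial * V * E) / Q.factorial := by field_simp
    rw [this, div_le_iff₀ hfac]
    calc _ ≤ _ := h4
      _ = _ := by field_simp
  refine h7.trans ?_
  have hX : 0 ≤ (((G⁻¹ / 2 + δ1) * Real.log k + C) * (M / Q.factorial)) := by positivity
  refine (mul_le_mul_of_nonneg_right h5 hX).trans ?_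
  have h8 : (G + δ2) * ((G⁻¹ / 2 + δ1) * Real.log k + C) ≤ (1 / 2 + ε) * Real.log k + C * (G + 1) := by
    have h9 : (G + δ2) * (G⁻¹ / 2 + δ1) ≤ 1 / 2 + ε := by
      have h10 : (G + δ2) * δ1 ≤ ε / 2 := by
        have : (G + δ2) * δ1 ≤ (G + 1) * δ1 := by
          apply mul_le_mul_of_nonneg_right _ hδ1p.le
          have := min_le_left 1 (G * ε)
          linarith
        refine this.trans (le_of_eq ?_)
        rw [hδ1]
        field_simp
      have h11 : δ2 * (G⁻¹ / 2) ≤ ε / 2 := by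
        have : δ2 * (G⁻¹ / 2) ≤ (G * ε) * (G⁻¹ / 2) :=
          mul_le_mul_of_nonneg_right (min_le_right _ _) (by positivity)
        refine this.trans (le_of_eq ?_)
        field_simp
      have h12 : G * (G⁻¹ / 2) = 1 / 2 := by field_simp
      calc (G + δ2) * (G⁻¹ / 2 + δ1) = G * (G⁻¹ / 2) + δ2 * (G⁻¹ / 2) + (G + δ2) * δ1 := by ring
        _ ≤ 1 / 2 + ε / 2 + ε / 2 := by linarith
        _ = 1 / 2 + ε := by ring
    have h13 : (G + δ2) * C ≤ C * (G + 1) := by
      rw [mul_comm]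
      apply mul_le_mul_of_nonneg_left _ hC
      have := min_le_left 1 (G * ε)
      linarith
    calc _ = (G + δ2) * (G⁻¹ / 2 + δ1) * Real.log k + (G + δ2) * C := by ring
      _ ≤ (1 / 2 + ε) * Real.log k + C * (G + 1) := add_le_add (mul_le_mul_of_nonneg_right h9 hlogk) h13
  calc _ = ((G + δ2) * ((G⁻¹ / 2 + δ1) * Real.log k + C)) * (Real.log Q * (M / Q.factorial)) := by ring
    _ ≤ ((1 / 2 + ε) * Real.log k + C * (G + 1)) * (Real.log Q * (M / Q.factorial)) :=
        mul_le_mul_of_nonneg_right h8 (by positivity)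
    _ = _ := by ring

end Pool.Agent.Run7.h962.NW
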