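import Pool.Agent.N422.NWS.Stm
import Pool.Agent.N422.WS.Stm

/-!
# The sharp limit of nonnegative sieve weights for k-tuples (helper962): additional statements

The statements `S_GEN`, `S_MPOL`, `S_ABS`, `S_MULTI`, `S_TRIG`, `S_CUBE`, `S_WIN`, `S_SEQ`, `S_MOM`, `S_SITE`, `S_PSs`, `S_MER2`
of the starting file `Pool/Agent/N422/NWS/Stm.lean` are used as they are.
-/

set_option autoImplicit false

open Finset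

namespace Pool.Agent.Run7.h962.NW

open Pool.Agent.N422.NW Pool.Agent.N422.NWS Pool.Agent.N422.SL

/-- the number of hits (HITN).  Proof: for `T : Finset (Fin N)` let `f' T = k^(-N) ∑_s f (γ_{T,s})`, the sum over all
`s : Fin N → Fin k`, `γ_{T,s} i = some (s i)` for `i ∈ T`, `none` otherwise.  With `g i = k u_i` one has
`∑_T muT g T f'(T) G(T) = ∑_γ muU u γ f(γ) G(hit set of γ)` and `LevT β n f'`; apply `N422.WS.S_MOD1`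
(`t_MOD1 (t_W t_AV) km`). -/
def S_HITN : Prop := ∀ (N k m n : ℕ) (u : Fin N → ℝ) (β : Fin N → ℕ) (f : St N k → ℝ), 0 < k → 0 < m → 0 < n →
  (∀ i, m ≤ β i) → (∀ i, 0 ≤ u i ∧ k * u i ≤ 1) → (∀ γ, 0 ≤ f γ) → Lev β n f →
  ∑ γ, muU u γ * f γ * ((univ.filter (fun i => γ i ≠ none)).card : ℝ) ≤
    (k * ∑ i, u i + 12 * Real.sqrt ((k * ∑ i, u i) * (n / m)) + 24 * (n / m)) * ∑ γ, muU u γ * f γ

/-- the main sum -/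
noncomputable def SE (ρ J : ℕ) : ℝ :=
  ∑ A ∈ (Ico J (ρ * J)).powerset.erase ∅, (∏ h ∈ A, 1 / (h : ℝ)) / (∑ h ∈ A, (h : ℝ))

/-- the constant of the second order term in a window -/
noncomputable def DD (ε : ℝ) (ρ J : ℕ) : ℝ := (1 / 2 + ε) * (SE ρ J + ε) + ε

/-- the inequality in the model with `L` windows, ratio `ρ`, cells `J ≤ h < ρ J` (IN), from `S_MULTI`, `S_SITE`, `S_HITN`.
Proof: `v l = ρ^l`, `hs c = J + c`, `win i = l` and `cel i = c` if `ρ^l (J + c) ≤ β i < ρ^l (J + c + 1)`, `u = 1/q`,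
`t = υ0 / ρ^L`, `B l = 1 / (b + D l)`, `D = DD ε ρ J`. -/
def S_IN : Prop := ∀ (ρ J : ℕ) (ε : ℝ), 2 ≤ ρ → 2 ≤ J → 0 < ε → ∃ B0 : ℝ, 0 < B0 ∧
  ∀ (k L : ℕ) (b ε' : ℝ), 1 ≤ k → 1 ≤ L → k ≤ ρ ^ L → 0 < b → 1 ≤ b * B0 → 0 < ε' → ∃ η q0 : ℝ, 0 < η ∧ 0 < q0 ∧
  ∀ (N : ℕ) (q : Fin N → ℝ) (β : Fin N → ℕ), (∀ i, J ≤ β i ∧ β i < J * ρ ^ L) → (∀ i, q0 ≤ q i) →
  (∀ j, J ≤ j → j < J * ρ ^ L → Real.log (((j : ℝ) + 1) / j) - η ≤ ∑ i ∈ univ.filter (fun i => β i = j), 1 / q i ∧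
    ∑ i ∈ univ.filter (fun i => β i = j), 1 / q i ≤ Real.log (((j : ℝ) + 1) / j) + η) →
  ∀ f : St N k → ℝ, (∀ γ, 0 ≤ f γ) → Lev β (J * ρ ^ L) f →
    ∑ γ, muP q γ * f γ * ((alive γ N).card : ℝ) ≤
      (1 + ε') * (1 + (1 / b + DD ε ρ J / b ^ 2) / J) * (J * (b + DD ε ρ J * (L - 1))) * ∑ γ, muP q γ * f γ

/-- the final inequality (FIN), from `S_PSs`, `t_AR`, `t_MER`, `S_MER2` -/
def S_FIN : Prop := ∀ ε : ℝ, 0 < ε → ∃ C : ℝ, 0 ≤ C ∧ ∀ (k : ℕ) (B : ℝ), 1 ≤ k → ∃ Q0 : ℕ, ∀ Q : ℕ, Q0 ≤ Q →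
  ∀ H : Finset ℕ, H.card = k → (∀ h ∈ H, (h : ℝ) ≤ (Q : ℝ) ^ B) → ∀ c : ℕ → ℕ → ℝ, (∀ n, 0 ≤ wt Q c n) →
  ∑ n ∈ range Q.factorial, wt Q c n * ((H.filter (fun h => ∀ p ∈ range (Q + 1), p.Prime → ¬ p ∣ n + h)).card : ℝ) ≤
    ((Real.exp (-Real.eulerMascheroniConstant) / 2 + ε) * Real.log k + C) * ∑ n ∈ range Q.factorial, wt Q c n

end Pool.Agent.Run7.h962.NW
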